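import Mathlib

section

set_option autoImplicit false

open Finset Real

namespace Pool.Agent.MP_caa27d_co.E

/-- Members of `F` with the same trace on `T` as `A`. -/
def cl (F : Finset (Finset ℕ)) (T A : Finset ℕ) : Finset (Finset ℕ) :=
  F.filter fun D => D ∩ T = A ∩ T

/-- Share of the members of `S` that miss `j`. -/
noncomputable def p0 (S : Finset (Finset ℕ)) (j : ℕ) : ℝ :=
  ((S.filter fun D => j ∉ D).card : ℝ) / S.card

/-- Conditional probability of missing `j`, given the trace on `T`. -/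
noncomputable def P (F : Finset (Finset ℕ)) (T : Finset ℕ) (j : ℕ) (A : Finset ℕ) : ℝ :=
  p0 (cl F T A) j

noncomputable def ind (j : ℕ) (A : Finset ℕ) : ℝ := if j ∈ A then 0 else 1

noncomputable def L (F : Finset (Finset ℕ)) (T : Finset ℕ) : ℝ :=
  ∑ A ∈ F, log ((cl F T A).card : ℝ)

variable {F S : Finset (Finset ℕ)} {T T' A D B : Finset ℕ} {j n : ℕ}

lemma p0_nonneg : 0 ≤ p0 S j := by unfold p0; positivity

lemma p0_le_one : p0 S j ≤ 1 :=
  div_le_one_of_le₀ (by exact_mod_cast card_filter_le _ _) (by positivity)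

lemma P_nonneg : 0 ≤ P F T j A := p0_nonneg

lemma P_le_one : P F T j A ≤ 1 := p0_le_one

lemma p0_pos (hD : D ∈ S) (hj : j ∉ D) : 0 < p0 S j :=
  div_pos (by exact_mod_cast card_pos.2 ⟨D, mem_filter.2 ⟨hD, hj⟩⟩)
    (by exact_mod_cast card_pos.2 ⟨D, hD⟩)

lemma one_sub_p0 (hS : S.Nonempty) :
    1 - p0 S j = ((S.filter fun D => j ∈ D).card : ℝ) / S.card := by
  have h0 : (S.card : ℝ) ≠ 0 := by exact_mod_cast hS.card_pos.ne'
  have h1 : ((S.filter fun D => j ∈ D).card : ℝ) + (S.filter fun D => j ∉ D).card = S.card := by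
    exact_mod_cast card_filter_add_card_filter_not (s := S) (fun D => j ∈ D)
  unfold p0
  field_simp
  linarith

lemma p0_lt_one (hD : D ∈ S) (hj : j ∈ D) : p0 S j < 1 := by
  have : 0 < 1 - p0 S j := by
    rw [one_sub_p0 ⟨D, hD⟩]
    exact div_pos (by exact_mod_cast card_pos.2 ⟨D, mem_filter.2 ⟨hD, hj⟩⟩)
      (by exact_mod_cast card_pos.2 ⟨D, hD⟩)
  linarith

lemma self_mem (hA : A ∈ F) : A ∈ cl F T A := mem_filter.2 ⟨hA, rfl⟩

lemma cl_congr (e : D ∩ T = A ∩ T) : cl F T D = cl F T A := by simp only [cl, e]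

lemma P_congr (e : D ∩ T = A ∩ T) : P F T j D = P F T j A := by simp only [P, cl_congr e]

lemma inter_mono (hT : T ⊆ T') (e : D ∩ T' = A ∩ T') : D ∩ T = A ∩ T := by
  rw [← inter_eq_right.2 hT, ← inter_assoc, e, inter_assoc]

lemma tower (f : Finset ℕ → ℝ) :
    ∑ A ∈ F, f A = ∑ A ∈ F, (∑ D ∈ cl F T A, f D) / (cl F T A).card := by
  have h1 : ∀ A ∈ F, (∑ D ∈ cl F T A, f D) / (cl F T A).card =
      ∑ D ∈ F, if A ∩ T = D ∩ T then f D / (cl F T D).card else 0 := by
    intro A _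
    rw [sum_div, cl, sum_filter]
    refine sum_congr rfl fun D _ => ?_
    by_cases e : D ∩ T = A ∩ T
    · rw [if_pos e, if_pos e.symm, cl_congr e, cl]
    · rw [if_neg e, if_neg fun e' => e e'.symm]
  rw [sum_congr rfl h1, sum_comm]
  refine sum_congr rfl fun D hD => ?_
  have h0 : ((cl F T D).card : ℝ) ≠ 0 := by exact_mod_cast (card_pos.2 ⟨D, self_mem hD⟩).ne'
  rw [← sum_filter, sum_const, nsmul_eq_mul]
  change _ = ((cl F T D).card : ℝ) * _
  field_simp

lemma sum_ind : ∑ D ∈ S, ind j D = ((S.filter fun D => j ∉ D).card : ℝ) := by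
  rw [card_filter]
  push_cast
  refine sum_congr rfl fun D _ => ?_
  by_cases e : j ∈ D <;> simp [ind, e]

/-- Martingale identity. -/
lemma mart (g : Finset ℕ → ℝ) (hg : ∀ A D, D ∩ T = A ∩ T → g D = g A) :
    ∑ A ∈ F, g A * P F T j A = ∑ A ∈ F, g A * ind j A := by
  rw [tower (T := T) fun A => g A * ind j A]
  refine sum_congr rfl fun A _ => ?_
  rw [sum_congr rfl fun D hD => by rw [hg A D (mem_filter.1 hD).2], ← mul_sum, sum_ind, P, p0,
    mul_div_assoc]

lemma mart2 (hT : T ⊆ T') (g : Finset ℕ → ℝ) (hg : ∀ A D, D ∩ T = A ∩ T → g D = g A) :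
    ∑ A ∈ F, g A * (P F T' j A - P F T j A) = 0 := by
  simp only [mul_sub, sum_sub_distrib]
  rw [mart g hg, mart g fun A D e => hg A D (inter_mono hT e), sub_self]

def Ref (x z : ℝ) : Prop := (x = 0 → z = 0) ∧ (x = 1 → z = 1)

lemma ref_P (hT : T ⊆ T') (hA : A ∈ F) : Ref (P F T j A) (P F T' j A) := by
  have hs : ∀ D ∈ cl F T' A, D ∈ cl F T A := fun D hD =>
    mem_filter.2 ⟨(mem_filter.1 hD).1, inter_mono hT (mem_filter.1 hD).2⟩
  constructor
  · intro e
    have : (cl F T' A).filter (fun D => j ∉ D) = ∅ :=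
      filter_eq_empty_iff.2 fun D hD hj => (p0_pos (hs D hD) hj).ne' e
    simp [P, p0, this]
  · intro e
    have : (cl F T' A).filter (fun D => j ∈ D) = ∅ :=
      filter_eq_empty_iff.2 fun D hD hj => (p0_lt_one (hs D hD) hj).ne e
    have h2 := one_sub_p0 (j := j) ⟨A, self_mem (T := T') hA⟩
    rw [this] at h2
    simp only [card_empty, Nat.cast_zero, zero_div] at h2
    unfold P
    linarith

lemma ins_iff : D ∩ insert j T = A ∩ insert j T ↔ D ∩ T = A ∩ T ∧ (j ∈ D ↔ j ∈ A) := by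
  simp only [Finset.ext_iff, mem_inter, mem_insert]
  constructor
  · intro e
    exact ⟨fun a => by have := e a; tauto, by have := e j; tauto⟩
  · rintro ⟨e, e'⟩ a
    have := e a
    by_cases ha : a = j
    · subst ha; tauto
    · tauto

lemma step_pt (hA : A ∈ F) :
    log ((cl F T A).card : ℝ) - log ((cl F (insert j T) A).card : ℝ) =
      -log (P F T j A) * ind j A + -log (1 - P F T j A) * (1 - ind j A) := by
  have h0 : ((cl F T A).card : ℝ) ≠ 0 := by exact_mod_cast (card_pos.2 ⟨A, self_mem hA⟩).ne'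
  have h1 : ((cl F (insert j T) A).card : ℝ) ≠ 0 := by
    exact_mod_cast (card_pos.2 ⟨A, self_mem hA⟩).ne'
  by_cases e : j ∈ A
  · have : cl F (insert j T) A = (cl F T A).filter fun D => j ∈ D := by
      ext D; simp only [cl, mem_filter, ins_iff]; tauto
    rw [P, one_sub_p0 ⟨A, self_mem hA⟩, ← this, log_div h1 h0]
    simp [ind, e]
  · have : cl F (insert j T) A = (cl F T A).filter fun D => j ∉ D := by
      ext D; simp only [cl, mem_filter, ins_iff]; tauto
    rw [P, p0, ← this, log_div h1 h0]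
    simp [ind, e]

lemma step : L F T - L F (insert j T) = ∑ A ∈ F, binEntropy (P F T j A) := by
  have h1 := mart (F := F) (T := T) (j := j) (fun A => -log (P F T j A) + log (1 - P F T j A))
    fun A D e => by rw [P_congr e]
  rw [L, L, ← sum_sub_distrib, sum_congr rfl fun A hA => step_pt hA]
  have h2 : ∀ A, -log (P F T j A) * ind j A + -log (1 - P F T j A) * (1 - ind j A) =
      (-log (P F T j A) + log (1 - P F T j A)) * ind j A - log (1 - P F T j A) := fun A => by ring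
  simp only [h2, sum_sub_distrib, ← h1]
  rw [← sum_sub_distrib]
  refine sum_congr rfl fun A _ => ?_
  simp only [binEntropy, log_inv]
  ring

lemma L_empty : L F ∅ = F.card * log F.card := by simp [L, cl]

lemma cl_top (hF : ∀ A ∈ F, A ⊆ range n) (hA : A ∈ F) : cl F (range n) A = {A} := by
  ext D
  simp only [cl, mem_filter, mem_singleton, inter_eq_left.2 (hF A hA)]
  exact ⟨fun ⟨hD, e⟩ => by rwa [inter_eq_left.2 (hF D hD)] at e,
    fun e => by subst e; exact ⟨hA, inter_eq_left.2 (hF D hA)⟩⟩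

lemma L_top (hF : ∀ A ∈ F, A ⊆ range n) : L F (range n) = 0 :=
  sum_eq_zero fun A hA => by simp [cl_top hF hA]

lemma E0 (hF : ∀ A ∈ F, A ⊆ range n) :
    ∑ j ∈ range n, ∑ A ∈ F, binEntropy (P F (range j) j A) = F.card * log F.card := by
  simp only [← step, ← range_add_one]
  rw [sum_range_sub' fun j => L F (range j), L_top hF, range_zero, L_empty, sub_zero]

lemma I0a : ∑ j ∈ range n, ind j B * ∑ A ∈ F, binEntropy (P F (range j \ B) j A) =
    F.card * log F.card - L F (range n \ B) := by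
  have := sum_range_sub' (fun j => L F (range j \ B)) n
  simp only [range_zero, empty_sdiff, L_empty] at this
  rw [← this]
  refine sum_congr rfl fun j _ => ?_
  by_cases e : j ∈ B
  · simp [ind, e, range_add_one, insert_sdiff_of_mem _ e]
  · simp [ind, e, range_add_one, insert_sdiff_of_notMem _ e, step]

lemma I0b (hF : ∀ A ∈ F, A ⊆ range n) :
    ∑ j ∈ range n, (1 - ind j B) * ∑ A ∈ F, binEntropy (P F (range j ∪ range n \ B) j A) =
      L F (range n \ B) := by
  have := sum_range_sub' (fun j => L F (range j ∪ range n \ B)) n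
  simp only [range_zero, empty_union, union_eq_left.2 sdiff_subset, L_top hF, sub_zero] at this
  rw [← this]
  refine sum_congr rfl fun j hj => ?_
  by_cases e : j ∈ B
  · simp [ind, e, range_add_one, insert_union, step]
  · have : j ∈ range j ∪ range n \ B := mem_union_right _ (mem_sdiff.2 ⟨hj, e⟩)
    simp [ind, e, range_add_one, insert_union, insert_eq_of_mem this]

end Pool.Agent.MP_caa27d_co.E

end

section

set_option autoImplicit false

open Finset Real

namespace Pool.Agent.MP_caa27d_co.E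

variable {F : Finset (Finset ℕ)} {A D B : Finset ℕ} {j n : ℕ}

lemma sd_congr (e : D ∩ range j = B ∩ range j) : range j \ D = range j \ B := by
  ext a
  have := Finset.ext_iff.1 e a
  simp only [mem_inter, mem_sdiff] at this ⊢
  tauto

lemma un_congr1 (e : D ∩ (range j \ B) = A ∩ (range j \ B)) :
    (D ∪ B) ∩ range j = (A ∪ B) ∩ range j := by
  ext a
  have := Finset.ext_iff.1 e a
  simp only [mem_inter, mem_sdiff, mem_union] at this ⊢
  tauto

lemma un_congr2 (e : D ∩ range j = B ∩ range j) : (A ∪ D) ∩ range j = (A ∪ B) ∩ range j := by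
  rw [union_inter_distrib_right, e, ← union_inter_distrib_right]

lemma martB (g : Finset ℕ → Finset ℕ → ℝ)
    (h2 : ∀ A B D, D ∩ range j = B ∩ range j → g A D = g A B) :
    ∑ B ∈ F, ∑ A ∈ F, g A B * ind j B = ∑ B ∈ F, ∑ A ∈ F, g A B * P F (range j) j B := by
  rw [sum_comm, sum_comm (f := fun B A => g A B * P F (range j) j B)]
  exact sum_congr rfl fun A _ => (mart (g A) (h2 A)).symm

lemma martAB (g : Finset ℕ → Finset ℕ → ℝ)
    (h1 : ∀ B A D, D ∩ (range j \ B) = A ∩ (range j \ B) → g D B = g A B)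
    (h2 : ∀ A B D, D ∩ range j = B ∩ range j → g A D = g A B) :
    ∑ B ∈ F, ∑ A ∈ F, g A B * (ind j A * ind j B) =
      ∑ B ∈ F, ∑ A ∈ F, g A B * (P F (range j \ B) j A * P F (range j) j B) := by
  have e1 : ∀ B ∈ F, ∑ A ∈ F, g A B * (ind j A * ind j B) =
      ∑ A ∈ F, (g A B * P F (range j \ B) j A) * ind j B := by
    intro B _
    rw [← sum_mul, mart (fun A => g A B) (h1 B), sum_mul]
    exact sum_congr rfl fun A _ => by ring
  rw [sum_congr rfl e1, martB (fun A B => g A B * P F (range j \ B) j A)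
    fun A B D e => by rw [h2 A B D e, sd_congr e]]
  simp only [mul_assoc]

lemma mul_div_le' {p q : ℝ} (hq : 0 ≤ q) : p * (q / p) ≤ q := by
  by_cases e : p = 0
  · simpa [e] using hq
  · rw [mul_div_cancel₀ _ e]

lemma T1j (hc : ∀ A ∈ F, ∀ B ∈ F, A ∪ B ∈ F) :
    ∑ B ∈ F, ∑ A ∈ F, binEntropy (P F (range j \ B) j A * P F (range j) j B) ≤
      ∑ B ∈ F, ∑ A ∈ F, (log ((cl F (range j) (A ∪ B)).card : ℝ) -
        log ((cl F (range (j + 1)) (A ∪ B)).card : ℝ)) := by
  set p := fun A B => P F (range j \ B) j A * P F (range j) j B with hp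
  set q := fun A B => P F (range j) j (A ∪ B) with hq
  have p1 : ∀ B A D, D ∩ (range j \ B) = A ∩ (range j \ B) → p D B = p A B ∧ q D B = q A B :=
    fun B A D e => ⟨by simp only [hp, P_congr e], P_congr (un_congr1 e)⟩
  have p2 : ∀ A B D, D ∩ range j = B ∩ range j → p A D = p A B ∧ q A D = q A B :=
    fun A B D e => ⟨by simp only [hp, P_congr e, sd_congr e], P_congr (un_congr2 e)⟩
  have e1 := martAB (F := F) (j := j) (fun A B => -log (p A B) + log (1 - p A B) -
      (q A B / p A B - (1 - q A B) / (1 - p A B)))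
    (fun B A D e => by rw [(p1 B A D e).1, (p1 B A D e).2])
    fun A B D e => by rw [(p2 A B D e).1, (p2 A B D e).2]
  rw [← sub_nonneg, ← sub_eq_zero.2 e1, ← sum_sub_distrib, ← sum_sub_distrib]
  refine sum_le_sum fun B hB => ?_
  rw [← sum_sub_distrib, ← sum_sub_distrib]
  refine sum_le_sum fun A hA => ?_
  have hC := hc A hA B hB
  rw [range_add_one, step_pt hC]
  change _ - _ * p A B ≤ -log (q A B) * _ + -log (1 - q A B) * _ - binEntropy (p A B)
  have a1 := mul_div_le' (p := p A B) (q := q A B) P_nonneg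
  have a2 := mul_div_le' (p := 1 - p A B) (q := 1 - q A B) (sub_nonneg.2 P_le_one)
  simp only [binEntropy, log_inv]
  by_cases e : j ∈ A ∪ B
  · have b1 : 0 < 1 - q A B := sub_pos.2 (p0_lt_one (self_mem hC) e)
    have b2 : 0 < 1 - p A B := by
      rcases mem_union.1 e with e | e
      · exact sub_pos.2 (mul_lt_one_of_nonneg_of_lt_one_left P_nonneg (p0_lt_one (self_mem hA) e)
          P_le_one)
      · exact sub_pos.2 (mul_lt_one_of_nonneg_of_lt_one_right P_le_one P_nonneg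
          (p0_lt_one (self_mem hB) e))
    have b3 := log_le_sub_one_of_pos (div_pos b1 b2)
    rw [log_div b1.ne' b2.ne'] at b3
    have b4 : ind j A * ind j B = 0 := by
      rcases mem_union.1 e with e | e <;> simp [ind, e]
    rw [b4, show ind j (A ∪ B) = 0 from if_pos e]
    nlinarith
  · have eA : j ∉ A := fun x => e (mem_union_left _ x)
    have eB : j ∉ B := fun x => e (mem_union_right _ x)
    have b1 : 0 < q A B := p0_pos (self_mem hC) e
    have b2 : 0 < p A B := mul_pos (p0_pos (self_mem hA) eA) (p0_pos (self_mem hB) eB)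
    have b3 := log_le_sub_one_of_pos (div_pos b1 b2)
    rw [log_div b1.ne' b2.ne'] at b3
    rw [show ind j (A ∪ B) = 1 from if_neg e, show ind j A = 1 from if_neg eA,
      show ind j B = 1 from if_neg eB]
    nlinarith

lemma T1 (hc : ∀ A ∈ F, ∀ B ∈ F, A ∪ B ∈ F) (hF : ∀ A ∈ F, A ⊆ range n) :
    ∑ j ∈ range n, ∑ B ∈ F, ∑ A ∈ F, binEntropy (P F (range j \ B) j A * P F (range j) j B) ≤
      F.card * (F.card * log F.card) := by
  refine (sum_le_sum fun j _ => T1j hc).trans_eq ?_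
  rw [sum_comm, ← nsmul_eq_mul, ← sum_const]
  refine sum_congr rfl fun B hB => ?_
  rw [sum_comm, ← nsmul_eq_mul, ← sum_const]
  refine sum_congr rfl fun A hA => ?_
  rw [sum_range_sub' fun j => log ((cl F (range j) (A ∪ B)).card : ℝ), cl_top hF (hc A hA B hB)]
  simp [cl]

end Pool.Agent.MP_caa27d_co.E

end

section

set_option autoImplicit false

open Finset Real

namespace Pool.Agent.MP_caa27d_co.E

variable {F S : Finset (Finset ℕ)} {T A D B : Finset ℕ} {j n : ℕ}

noncomputable def w (κ x : ℝ) : ℝ :=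
  min κ (min (2 * binEntropy (min x 2⁻¹) - κ) (binEntropy (max (2 * x - 1) 2⁻¹)))

def Cp (f : ℝ → ℝ) : Prop := ∀ x y : ℝ, 0 ≤ x → x ≤ 1 → 0 ≤ y → y ≤ 1 →
  ∃ q, 0 ≤ q ∧ x + y - 1 ≤ q ∧ q ≤ x ∧ q ≤ y ∧ f x + f y ≤ 2 * binEntropy q

lemma h_conc {a b s : ℝ} (a0 : 0 ≤ a) (a1 : a ≤ 1) (b0 : 0 ≤ b) (b1 : b ≤ 1) (s0 : 0 ≤ s)
    (s1 : s ≤ 1) : (1 - s) * binEntropy a + s * binEntropy b ≤ binEntropy ((1 - s) * a + s * b) :=
  strictConcave_binEntropy.concaveOn.2 ⟨a0, a1⟩ ⟨b0, b1⟩ (sub_nonneg.2 s1) s0 (by ring)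

lemma h_anti {a b : ℝ} (h1 : 2⁻¹ ≤ a) (h2 : a ≤ b) (h3 : b ≤ 1) : binEntropy b ≤ binEntropy a :=
  binEntropy_strictAntiOn.antitoneOn ⟨h1, h2.trans h3⟩ ⟨h1.trans h2, h3⟩ h2

lemma h_mono {a b : ℝ} (h1 : 0 ≤ a) (h2 : a ≤ b) (h3 : b ≤ 2⁻¹) : binEntropy a ≤ binEntropy b :=
  binEntropy_strictMonoOn.monotoneOn ⟨h1, h2.trans h3⟩ ⟨h1.trans h2, h3⟩ h2

lemma w_low {κ x y : ℝ} (hx : x ≤ 2⁻¹) : w κ x + w κ y ≤ 2 * binEntropy x := by
  have h1 : w κ x ≤ 2 * binEntropy (min x 2⁻¹) - κ := (min_le_right _ _).trans (min_le_left _ _)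
  have h2 : w κ y ≤ κ := min_le_left _ _
  rw [min_eq_left hx] at h1
  linarith

lemma cp_w (κ : ℝ) : Cp (w κ) := by
  intro x y x0 x1 y0 y1
  by_cases h1 : x ≤ y ∧ x ≤ 2⁻¹
  · exact ⟨x, x0, by linarith, le_rfl, h1.1, w_low h1.2⟩
  by_cases h2 : y ≤ x ∧ y ≤ 2⁻¹
  · exact ⟨y, y0, by linarith, h2.1, le_rfl, by rw [add_comm]; exact w_low h2.2⟩
  have hx : 2⁻¹ ≤ x := by
    by_contra e
    rcases le_total x y with l | l
    · exact h1 ⟨l, by linarith⟩
    · exact h2 ⟨l, by linarith⟩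
  have hy : 2⁻¹ ≤ y := by
    by_contra e
    rcases le_total x y with l | l
    · exact h1 ⟨l, by linarith⟩
    · exact h2 ⟨l, by linarith⟩
  refine ⟨max (x + y - 1) 2⁻¹, le_max_of_le_right (by norm_num), le_max_left _ _,
    max_le (by linarith) hx, max_le (by linarith) hy, ?_⟩
  have a1 : w κ x ≤ _ := (min_le_right _ _).trans (min_le_right _ _)
  have a2 : w κ y ≤ _ := (min_le_right _ _).trans (min_le_right _ _)
  have u1 := le_max_left (2 * x - 1) 2⁻¹
  have u2 := le_max_right (2 * x - 1) 2⁻¹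
  have u3 : max (2 * x - 1) 2⁻¹ ≤ 1 := max_le (by linarith) (by norm_num)
  have v1 := le_max_left (2 * y - 1) 2⁻¹
  have v2 := le_max_right (2 * y - 1) 2⁻¹
  have v3 : max (2 * y - 1) 2⁻¹ ≤ 1 := max_le (by linarith) (by norm_num)
  have a3 := h_conc (s := 2⁻¹) (by linarith) u3 (by linarith) v3 (by norm_num) (by norm_num)
  have a4 := h_anti (a := max (x + y - 1) 2⁻¹) (b := (1 - 2⁻¹) * max (2 * x - 1) 2⁻¹ +
    2⁻¹ * max (2 * y - 1) 2⁻¹) (le_max_right _ _) (max_le (by linarith) (by linarith)) (by linarith)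
  linarith

lemma cp_zero : Cp fun _ => 0 := by
  intro x y x0 x1 y0 y1
  obtain ⟨q, a, b, c, d, -⟩ := cp_w 0 x y x0 x1 y0 y1
  exact ⟨q, a, b, c, d, by have := binEntropy_nonneg a (c.trans x1); linarith⟩

lemma ls1 {q a s : ℝ} (q0 : 0 ≤ q) (a0 : 0 ≤ a) (s0 : 0 < s) (e : 0 < q → 0 < a) :
    q * (log a - log q - log s) ≤ a / s - q := by
  rcases q0.eq_or_lt with rfl | hq
  · simpa using div_nonneg a0 s0.le
  · have h1 := log_le_sub_one_of_pos (div_pos (div_pos (e hq) hq) s0)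
    rw [log_div (div_pos (e hq) hq).ne' s0.ne', log_div (e hq).ne' hq.ne'] at h1
    refine (mul_le_mul_of_nonneg_left h1 q0).trans_eq ?_
    field_simp

lemma logsum {q a b : ℝ} (q0 : 0 ≤ q) (q1 : q ≤ 1) (a0 : 0 ≤ a) (b0 : 0 ≤ b) (s0 : 0 < a + b)
    (e1 : 0 < q → 0 < a) (e2 : 0 < 1 - q → 0 < b) :
    binEntropy q + q * log a + (1 - q) * log b ≤ log (a + b) := by
  have h1 := ls1 q0 a0 s0 e1
  have h2 := ls1 (sub_nonneg.2 q1) b0 s0 e2
  have h3 : a / (a + b) + b / (a + b) = 1 := by field_simp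
  simp only [binEntropy, log_inv]
  linarith

noncomputable def U (f : ℕ → ℝ → ℝ) (S : Finset (Finset ℕ)) (j d : ℕ) : ℝ :=
  (∑ A ∈ S, ∑ i ∈ range d, f (j + i) (P S (Ico j (j + i)) (j + i) A)) / S.card

lemma U_mul (f : ℕ → ℝ → ℝ) (d : ℕ) : S.card * U f S j d =
    ∑ A ∈ S, ∑ i ∈ range d, f (j + i) (P S (Ico j (j + i)) (j + i) A) := by
  rcases S.eq_empty_or_nonempty with rfl | hS
  · simp
  · exact mul_div_cancel₀ _ (by exact_mod_cast hS.card_pos.ne')

lemma U_succ (f : ℕ → ℝ → ℝ) (d : ℕ) (hS : S.Nonempty) : U f S j (d + 1) =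
    f j (p0 S j) + p0 S j * U f (S.filter fun D => j ∉ D) (j + 1) d +
      (1 - p0 S j) * U f (S.filter fun D => j ∈ D) (j + 1) d := by
  have h0 : (S.card : ℝ) ≠ 0 := by exact_mod_cast hS.card_pos.ne'
  have hI : ∀ i, Ico j (j + (i + 1)) = insert j (Ico (j + 1) (j + 1 + i)) := by
    intro i; ext a; simp only [mem_Ico, mem_insert]; omega
  rw [one_sub_p0 hS]
  nth_rw 2 [p0]
  rw [div_mul_eq_mul_div, div_mul_eq_mul_div, U_mul, U_mul, U, div_eq_iff h0, add_mul, add_mul,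
    div_mul_cancel₀ _ h0, div_mul_cancel₀ _ h0]
  simp only [sum_range_succ', sum_add_distrib, hI]
  rw [← sum_filter_add_sum_filter_not S fun D => j ∈ D]
  have e0 : ∑ A ∈ S, f (j + 0) (P S (Ico j (j + 0)) (j + 0) A) = f j (p0 S j) * S.card := by
    simp [P, cl, mul_comm]
  rw [e0, add_comm, add_assoc, add_comm (∑ _ ∈ filter _ _, _)]
  congr 2
  all_goals
    refine sum_congr rfl fun A hA => sum_congr rfl fun i _ => ?_
    have := (mem_filter.1 hA).2
    rw [show j + (i + 1) = j + 1 + i by ring, P, P]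
    congr 2
    ext D
    simp only [cl, mem_filter, ins_iff]
    tauto

lemma ne0 (e : p0 S j ≠ 0) : (S.filter fun D => j ∉ D).Nonempty := by
  rw [nonempty_iff_ne_empty]
  intro h0
  simp [p0, h0] at e

lemma ne1 (hS : S.Nonempty) (e : p0 S j ≠ 1) : (S.filter fun D => j ∈ D).Nonempty := by
  rw [nonempty_iff_ne_empty]
  intro h0
  have := one_sub_p0 (j := j) hS
  simp only [h0, card_empty, Nat.cast_zero, zero_div] at this
  exact e (by linarith)

lemma coup (f : ℕ → ℝ → ℝ) (hf : ∀ j, Cp (f j)) (d : ℕ) : ∀ (j : ℕ) (S1 S2 S3 : Finset (Finset ℕ)),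
    S1.Nonempty → S2.Nonempty → (∀ A ∈ S1, ∀ B ∈ S2, A ∪ B ∈ S3) →
      U f S1 j d + U f S2 j d ≤ 2 * log (S3.card : ℝ) := by
  induction d with
  | zero =>
    intro j S1 S2 S3 _ _ _
    simpa [U] using log_natCast_nonneg S3.card
  | succ d ih =>
    intro j S1 S2 S3 n1 n2 hc
    obtain ⟨q, q0, q1, q2, q3, q4⟩ := hf j (p0 S1 j) (p0 S2 j) p0_nonneg p0_le_one p0_nonneg
      p0_le_one
    have x1 := p0_le_one (S := S1) (j := j)
    have y1 := p0_le_one (S := S2) (j := j)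
    have key : ∀ (r : ℝ) (R1 R2 R3 : Finset (Finset ℕ)), 0 ≤ r → (0 < r → R1.Nonempty) →
        (0 < r → R2.Nonempty) → (∀ A ∈ R1, ∀ B ∈ R2, A ∪ B ∈ R3) →
        r * (U f R1 (j + 1) d + U f R2 (j + 1) d) ≤ r * (2 * log (R3.card : ℝ)) := by
      intro r R1 R2 R3 r0 a b c
      rcases r0.eq_or_lt with rfl | hr
      · simp
      · exact mul_le_mul_of_nonneg_left (ih _ _ _ _ (a hr) (b hr) c) r0
    have c00 : ∀ A ∈ S1.filter fun D => j ∉ D, ∀ B ∈ S2.filter fun D => j ∉ D,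
        A ∪ B ∈ S3.filter fun D => j ∉ D := by
      simp only [mem_filter, mem_union]
      exact fun A hA B hB => ⟨hc A hA.1 B hB.1, by tauto⟩
    have k00 := key q _ _ _ q0 (fun e => ne0 (by linarith)) (fun e => ne0 (by linarith)) c00
    have k01 := key (p0 S1 j - q) (S1.filter fun D => j ∉ D) (S2.filter fun D => j ∈ D)
      (S3.filter fun D => j ∈ D) (by linarith) (fun e => ne0 (by linarith))
      (fun e => ne1 n2 (by linarith)) (by
        simp only [mem_filter, mem_union]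
        exact fun A hA B hB => ⟨hc A hA.1 B hB.1, by tauto⟩)
    have k10 := key (p0 S2 j - q) (S1.filter fun D => j ∈ D) (S2.filter fun D => j ∉ D)
      (S3.filter fun D => j ∈ D) (by linarith) (fun e => ne1 n1 (by linarith))
      (fun e => ne0 (by linarith)) (by
        simp only [mem_filter, mem_union]
        exact fun A hA B hB => ⟨hc A hA.1 B hB.1, by tauto⟩)
    have k11 := key (1 - p0 S1 j - p0 S2 j + q) (S1.filter fun D => j ∈ D)
      (S2.filter fun D => j ∈ D) (S3.filter fun D => j ∈ D) (by linarith)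
      (fun e => ne1 n1 (by linarith)) (fun e => ne1 n2 (by linarith)) (by
        simp only [mem_filter, mem_union]
        exact fun A hA B hB => ⟨hc A hA.1 B hB.1, by tauto⟩)
    have hs : ((S3.filter fun D => j ∉ D).card : ℝ) + (S3.filter fun D => j ∈ D).card = S3.card := by
      rw [add_comm]
      exact_mod_cast card_filter_add_card_filter_not (s := S3) (fun D => j ∈ D)
    obtain ⟨A, hA⟩ := id n1
    obtain ⟨B, hB⟩ := id n2
    have hl := logsum (a := (S3.filter fun D => j ∉ D).card) (b := (S3.filter fun D => j ∈ D).card)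
      q0 (q2.trans x1) (Nat.cast_nonneg _) (Nat.cast_nonneg _)
      (by rw [hs]; exact_mod_cast card_pos.2 ⟨_, hc A hA B hB⟩) (fun e => by
        obtain ⟨A, hA⟩ := ne0 (S := S1) (j := j) (by linarith)
        obtain ⟨B, hB⟩ := ne0 (S := S2) (j := j) (by linarith)
        exact_mod_cast card_pos.2 ⟨_, c00 A hA B hB⟩) (fun e => by
        by_cases e1 : p0 S1 j = 1
        · obtain ⟨B, hB⟩ := ne1 (j := j) n2 (by linarith)
          exact Nat.cast_pos.2 <| card_pos.2 ⟨A ∪ B, mem_filter.2 ⟨hc A hA B (mem_filter.1 hB).1,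
            mem_union_right _ (mem_filter.1 hB).2⟩⟩
        · obtain ⟨A, hA⟩ := ne1 n1 e1
          exact Nat.cast_pos.2 <| card_pos.2 ⟨A ∪ B, mem_filter.2 ⟨hc A (mem_filter.1 hA).1 B hB,
            mem_union_left _ (mem_filter.1 hA).2⟩⟩)
    rw [hs] at hl
    rw [U_succ f d n1, U_succ f d n2]
    linarith

lemma T2 (hc : ∀ A ∈ F, ∀ B ∈ F, A ∪ B ∈ F) (κ : ℕ → ℝ → ℝ) :
    ∑ j ∈ range n, (1 - ind j B) * ∑ A ∈ F,
      w (κ j (P F (range j \ B) j A)) (P F (range j ∪ range n \ B) j A) ≤ L F (range n \ B) := by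
  simp only [mul_sum]
  rw [sum_comm, tower (T := range n \ B)]
  refine sum_le_sum fun A hA => ?_
  have hS : (cl F (range n \ B) A).Nonempty := ⟨A, self_mem hA⟩
  have h1 := coup (fun j => if j ∈ B then w (κ j (P F (range j \ B) j A)) else fun _ => 0)
    (fun j => by split_ifs; exacts [cp_w _, cp_zero]) n 0 _ _ (cl F (range n \ B) A) hS hS
    fun D hD E hE => mem_filter.2 ⟨hc D (mem_filter.1 hD).1 E (mem_filter.1 hE).1, by
      rw [union_inter_distrib_right, (mem_filter.1 hD).2, (mem_filter.1 hE).2, union_self]⟩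
  refine le_trans (le_of_eq ?_) (le_of_mul_le_mul_left ((two_mul _).trans_le h1) two_pos)
  unfold U
  congr 1
  refine sum_congr rfl fun D hD => sum_congr rfl fun i hi => ?_
  have e := (mem_filter.1 hD).2
  have e1 : P F (range i \ B) i D = P F (range i \ B) i A :=
    P_congr (inter_mono (sdiff_subset_sdiff (range_mono (mem_range.1 hi).le) subset_rfl) e)
  have e2 : cl F (range i ∪ range n \ B) D = cl (cl F (range n \ B) A) (range i) D := by
    ext E
    simp only [cl, mem_filter, ← e, and_assoc]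
    refine and_congr_right fun _ => ⟨fun x => ⟨inter_mono subset_union_right x,
      inter_mono subset_union_left x⟩, fun x => ?_⟩
    rw [inter_union_distrib_left, inter_union_distrib_left, x.1, x.2]
  simp only [zero_add, Nat.Ico_zero_eq_range, e1]
  by_cases hB : i ∈ B
  · simp [ind, hB, P, e2]
  · simp [ind, hB]

end Pool.Agent.MP_caa27d_co.E

end

section

set_option autoImplicit false

open Finset Real

namespace Pool.Agent.MP_caa27d_co.E

variable {F : Finset (Finset ℕ)} {j n : ℕ}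

def I (x : ℝ) : Prop := 0 ≤ x ∧ x ≤ 1

/-- Local (pointwise) part of a certificate. -/
def Loc (κ : ℝ → ℝ → ℝ) (k : ℝ → ℝ → ℝ) : Prop := ∃ (ψ t : ℝ → ℝ → ℝ → ℝ) (σ : ℝ → ℝ → ℝ),
  (∀ y u x z, I y → I u → I x → I z → Ref x z →
    ψ y u x + t y u x * (z - x) ≤ 6 / 25 * w (κ y u) z - 41 / 50 * binEntropy z) ∧
  ∀ y u x, I y → I u → I x → Ref u x →
    k y x ≤ binEntropy (u * y) - 29 / 50 * y * binEntropy u + σ y u * (x - u) + (1 - y) * ψ y u x

def Num (F : Finset (Finset ℕ)) (x : Finset ℕ → ℝ) : Prop := ∃ κ k, Loc κ k ∧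
  F.card * (∑ A ∈ F, binEntropy (x A)) / 4000 ≤
    ∑ B ∈ F, ∑ A ∈ F, (k (x B) (x A) - 21 / 50 * binEntropy (x A))

noncomputable def cost (F : Finset (Finset ℕ)) (n j : ℕ) (κ : ℝ → ℝ → ℝ) : ℝ :=
  ∑ B ∈ F, ∑ A ∈ F, (binEntropy (P F (range j \ B) j A * P F (range j) j B) -
    29 / 50 * (ind j B * binEntropy (P F (range j \ B) j A)) +
    6 / 25 * ((1 - ind j B) * w (κ (P F (range j) j B) (P F (range j \ B) j A))
      (P F (range j ∪ range n \ B) j A)) -
    41 / 50 * ((1 - ind j B) * binEntropy (P F (range j ∪ range n \ B) j A)) -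
    21 / 50 * binEntropy (P F (range j) j A))

lemma total (hc : ∀ A ∈ F, ∀ B ∈ F, A ∪ B ∈ F) (hF : ∀ A ∈ F, A ⊆ range n)
    (κ : ℕ → ℝ → ℝ → ℝ) : ∑ j ∈ range n, cost F n j (κ j) ≤ 0 := by
  have h1 := T1 hc hF
  have h2 := sum_congr rfl fun B (_ : B ∈ F) => I0a (F := F) (B := B) (n := n)
  have h3 := sum_congr rfl fun B (_ : B ∈ F) => I0b (B := B) hF
  have h4 := sum_le_sum fun B (_ : B ∈ F) =>
    T2 (B := B) (n := n) hc fun j => κ j (P F (range j) j B)
  have h5 := sum_congr rfl fun B (_ : B ∈ F) => E0 hF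
  rw [sum_comm] at h2 h3 h4 h5
  simp only [sum_sub_distrib, sum_const, nsmul_eq_mul] at h2
  rw [sum_const, nsmul_eq_mul] at h5
  simp only [cost, sum_sub_distrib, sum_add_distrib, ← mul_sum]
  linarith

lemma IP {T A : Finset ℕ} : I (P F T j A) := ⟨P_nonneg, P_le_one⟩

lemma cost_ge {κ k : ℝ → ℝ → ℝ} (hL : Loc κ k) :
    ∑ B ∈ F, ∑ A ∈ F, (k (P F (range j) j B) (P F (range j) j A) -
      21 / 50 * binEntropy (P F (range j) j A)) ≤ cost F n j κ := by
  obtain ⟨ψ, t, σ, h1, h2⟩ := hL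
  have a1 : ∑ B ∈ F, ∑ A ∈ F, (1 - ind j B) *
      (t (P F (range j) j B) (P F (range j \ B) j A) (P F (range j) j A) *
        (P F (range j ∪ range n \ B) j A - P F (range j) j A)) = 0 :=
    sum_eq_zero fun B _ => by
      rw [← mul_sum, mart2 subset_union_left _ fun A D e => by
        rw [P_congr e, P_congr (inter_mono sdiff_subset e)], mul_zero]
  have a2 := martB (F := F) (j := j) (fun A B => 29 / 50 * binEntropy (P F (range j \ B) j A) +
    ψ (P F (range j) j B) (P F (range j \ B) j A) (P F (range j) j A))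
    fun A B D e => by rw [P_congr e, sd_congr e]
  have a3 : ∑ B ∈ F, ∑ A ∈ F, σ (P F (range j) j B) (P F (range j \ B) j A) *
      (P F (range j) j A - P F (range j \ B) j A) = 0 :=
    sum_eq_zero fun B _ => mart2 sdiff_subset _ fun A D e => by rw [P_congr e]
  rw [← sub_eq_zero] at a2
  rw [← add_zero (∑ B ∈ F, _), ← show _ = (0 : ℝ) from (congr(($a1) - $a2 - $a3)).trans (by ring)]
  simp only [← sum_sub_distrib, ← sum_add_distrib]
  refine sum_le_sum fun B hB => sum_le_sum fun A hA => ?_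
  have b1 := h1 (P F (range j) j B) (P F (range j \ B) j A) _ _ IP IP IP IP
    (ref_P (j := j) (subset_union_left (s₁ := range j) (s₂ := range n \ B)) hA)
  have b2 := h2 (P F (range j) j B) _ _ IP IP IP
    (ref_P (j := j) (sdiff_subset (s := range j) (t := B)) hA)
  by_cases e : j ∈ B
  · rw [show ind j B = 0 from if_pos e]; linarith
  · rw [show ind j B = 1 from if_neg e]; linarith

lemma w_zero {x : ℝ} (hx : I x) : w 0 x = 0 :=
  min_eq_left (le_min (by
    have := binEntropy_nonneg (p := min x 2⁻¹) (le_min hx.1 (by norm_num))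
      ((min_le_left _ _).trans hx.2)
    linarith) (binEntropy_nonneg (le_max_of_le_right (by norm_num))
      (max_le (by linarith [hx.2]) (by norm_num))))

lemma cost_triv : -(F.card * (F.card * (31 / 25 * log 2))) ≤ cost F n j fun _ _ => 0 := by
  rw [← mul_neg, ← mul_neg, ← nsmul_eq_mul, ← nsmul_eq_mul, ← sum_const, ← sum_const]
  refine sum_le_sum fun B _ => sum_le_sum fun A _ => ?_
  have a1 := binEntropy_nonneg (mul_nonneg (P_nonneg (F := F) (T := range j \ B) (j := j) (A := A))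
    (P_nonneg (F := F) (T := range j) (j := j) (A := B))) (mul_le_one₀ P_le_one P_nonneg P_le_one)
  have a2 := binEntropy_le_log_two (p := P F (range j \ B) j A)
  have a3 := binEntropy_le_log_two (p := P F (range j ∪ range n \ B) j A)
  have a4 := binEntropy_le_log_two (p := P F (range j) j A)
  have a5 := log_pos one_lt_two
  rw [w_zero IP]
  by_cases e : j ∈ B
  · rw [show ind j B = 0 from if_pos e]; linarith
  · rw [show ind j B = 1 from if_neg e]; linarith

theorem main (hc : ∀ A ∈ F, ∀ B ∈ F, A ∪ B ∈ F) (hne : F.Nonempty)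
    (hN : ∀ x : Finset ℕ → ℝ, (∀ A, I (x A)) → 77 / 125 * (F.card : ℝ) ≤ ∑ A ∈ F, x A → Num F x) :
    ∃ W : Finset ℕ, F.card ≤ 2 ^ (5000 * W.card) ∧
      ∀ x ∈ W, 384 * F.card ≤ 1000 * (F.filter fun A => x ∈ A).card := by
  obtain ⟨n, hn⟩ := (F.biUnion id).exists_nat_subset_range
  have hF : ∀ A ∈ F, A ⊆ range n := fun A hA => (subset_biUnion_of_mem id hA).trans hn
  have h0 : (0 : ℝ) < F.card := by exact_mod_cast hne.card_pos
  have l2 := log_pos one_lt_two
  refine ⟨(range n).filter fun x => 384 * F.card ≤ 1000 * (F.filter fun A => x ∈ A).card, ?_,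
    fun x hx => (mem_filter.1 hx).2⟩
  have key : ∀ j, ∃ κ, F.card * (∑ A ∈ F, binEntropy (P F (range j) j A)) / 4000 -
      (if 384 * F.card ≤ 1000 * (F.filter fun A => j ∈ A).card then
        F.card * (F.card * (5 / 4 * log 2)) else 0) ≤ cost F n j κ := by
    intro j
    split_ifs with e
    · refine ⟨_, le_trans ?_ cost_triv⟩
      have := sum_le_card_nsmul F (fun A => binEntropy (P F (range j) j A)) _
        fun A _ => binEntropy_le_log_two
      rw [nsmul_eq_mul] at this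
      have := mul_le_mul_of_nonneg_left this h0.le
      have := mul_pos h0 (mul_pos h0 l2)
      linarith
    · obtain ⟨κ, k, hL, h2⟩ := hN (P F (range j) j) (fun _ => IP) (by
        have h1 := mart (F := F) (T := range j) (j := j) (fun _ => 1) fun _ _ _ => rfl
        have h2 := card_filter_add_card_filter_not (s := F) fun D => j ∈ D
        have h3 : 77 * F.card ≤ 125 * (F.filter fun D => j ∉ D).card := by omega
        simp only [one_mul, sum_ind] at h1
        have : (77 : ℝ) * F.card ≤ 125 * (F.filter fun D => j ∉ D).card := by exact_mod_cast h3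
        linarith)
      exact ⟨κ, by linarith [cost_ge (F := F) (j := j) (n := n) hL]⟩
  choose κ hκ using key
  have h1 := (sum_le_sum fun j (_ : j ∈ range n) => hκ j).trans (total hc hF κ)
  rw [sum_sub_distrib, ← sum_div, ← mul_sum, E0 hF, ← sum_filter, sum_const, nsmul_eq_mul] at h1
  rw [← Nat.cast_le (α := ℝ), ← log_le_log_iff h0 (by positivity)]
  push_cast
  rw [log_pow]
  push_cast
  refine le_of_mul_le_mul_left ?_ (mul_pos h0 h0)
  linarith

end Pool.Agent.MP_caa27d_co.E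

end

section

set_option autoImplicit false

open Finset Real

namespace Pool.Agent.MP_caa27d_co.E

structure Grid where
  N : ℕ
  x : ℕ → ℝ
  ce : ℝ → ℕ
  hp : ℕ → ℝ
  lt : ∀ i < N, x i < x (i + 1)
  xI : ∀ i ≤ N, I (x i)
  hce : ∀ z, I z → ce z < N ∧ x (ce z) ≤ z ∧ z ≤ x (ce z + 1)
  tan : ∀ c < N, ∃ q : ℝ, 0 < q ∧ q < 1 ∧ -x c * log q - (1 - x c) * log (1 - q) ≤ hp c ∧
    -x (c + 1) * log q - (1 - x (c + 1)) * log (1 - q) ≤ hp (c + 1)

lemma exists_ce (x : ℕ → ℝ) (N : ℕ) (hN : 0 < N) (h0 : x 0 = 0) (h1 : x N = 1) :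
    ∃ ce : ℝ → ℕ, ∀ z, I z → ce z < N ∧ x (ce z) ≤ z ∧ z ≤ x (ce z + 1) := by
  classical
  refine ⟨fun z => Nat.findGreatest (fun c => x c ≤ z) (N - 1), fun z hz => ?_⟩
  have a := Nat.findGreatest_le (P := fun c => x c ≤ z) (N - 1)
  refine ⟨a.trans_lt (by omega), Nat.findGreatest_spec (P := fun c => x c ≤ z) (Nat.zero_le _)
    (h0.trans_le hz.1), ?_⟩
  by_cases e : Nat.findGreatest (fun c => x c ≤ z) (N - 1) + 1 = N
  · rw [e, h1]; exact hz.2
  · exact (not_le.1 (Nat.findGreatest_is_greatest (P := fun c => x c ≤ z) (n := N - 1)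
      (Nat.lt_succ_self _) (by omega))).le

lemma gibbs {z q : ℝ} (hz : I z) (q0 : 0 < q) (q1 : q < 1) :
    binEntropy z ≤ -z * log q - (1 - z) * log (1 - q) := by
  have := logsum (a := q) (b := 1 - q) hz.1 hz.2 q0.le (by linarith) (by linarith) (fun _ => q0)
    fun _ => by linarith
  rw [add_sub_cancel, log_one] at this
  linarith

namespace Grid

variable (G : Grid)

noncomputable def τ (z : ℝ) : ℝ := (z - G.x (G.ce z)) / (G.x (G.ce z + 1) - G.x (G.ce z))

noncomputable def ip (f : ℕ → ℝ) (z : ℝ) : ℝ := (1 - G.τ z) * f (G.ce z) + G.τ z * f (G.ce z + 1)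

noncomputable def sl (f : ℕ → ℝ) (c : ℕ) : ℝ := (f (c + 1) - f c) / (G.x (c + 1) - G.x c)

def Cv (f : ℕ → ℝ) : Prop := ∀ b, b + 1 < G.N → G.sl f (b + 1) ≤ G.sl f b

variable {G} {z : ℝ} {f g : ℕ → ℝ}

lemma τI (hz : I z) : I (G.τ z) := by
  obtain ⟨a, b, c⟩ := G.hce z hz
  have := G.lt _ a
  exact ⟨div_nonneg (by linarith) (by linarith), div_le_one_of_le₀ (by linarith) (by linarith)⟩

lemma ip_x (hz : I z) : (1 - G.τ z) * G.x (G.ce z) + G.τ z * G.x (G.ce z + 1) = z := by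
  have := sub_pos.2 (G.lt _ (G.hce z hz).1)
  unfold τ
  field_simp
  ring

lemma ip_eq : G.ip f z = f (G.ce z) + G.sl f (G.ce z) * (z - G.x (G.ce z)) := by
  unfold ip τ sl
  ring

/-- Interpolating an inequality with an affine right side. -/
lemma ip_le (hz : I z) {a s : ℝ} (h0 : f (G.ce z) ≤ g (G.ce z) + a + s * G.x (G.ce z))
    (h1 : f (G.ce z + 1) ≤ g (G.ce z + 1) + a + s * G.x (G.ce z + 1)) :
    G.ip f z ≤ G.ip g z + a + s * z := by
  have b0 := mul_le_mul_of_nonneg_left h0 (sub_nonneg.2 (τI (G := G) hz).2)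
  have b1 := mul_le_mul_of_nonneg_left h1 (τI (G := G) hz).1
  have b2 := congr(s * $(ip_x (G := G) hz))
  unfold ip
  linarith

lemma sl_mul {c : ℕ} (hc : c < G.N) : f (c + 1) = f c + G.sl f c * (G.x (c + 1) - G.x c) := by
  rw [sl, div_mul_cancel₀ _ (sub_pos.2 (G.lt c hc)).ne', add_sub_cancel]

lemma sl_anti (hf : G.Cv f) {b c : ℕ} (h : b ≤ c) (hc : c < G.N) : G.sl f c ≤ G.sl f b := by
  induction c, h using Nat.le_induction with
  | base => exact le_rfl
  | succ c _ ih => exact (hf c hc).trans (ih (by omega))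

lemma cv_le (hf : G.Cv f) {b c : ℕ} (hb : b ≤ G.N) (hc : c < G.N) :
    f b ≤ f c + G.sl f c * (G.x b - G.x c) := by
  rcases le_total c b with h | h
  · induction b, h using Nat.le_induction with
    | base => simp
    | succ b h ih =>
      have := mul_le_mul_of_nonneg_right (sl_anti hf h hb) (sub_pos.2 (G.lt b hb)).le
      linarith [ih (by omega), sl_mul (f := f) hb]
  · induction h using Nat.decreasingInduction with
    | self => simp
    | of_succ b h ih =>
      have := mul_le_mul_of_nonneg_right (sl_anti hf h.le hc) (sub_pos.2 (G.lt b (h.trans hc))).le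
      linarith [ih (by omega), sl_mul (f := f) (h.trans hc)]

lemma ip_cv (hf : G.Cv f) {u : ℝ} (hu : I u) (hz : I z) :
    G.ip f z ≤ G.ip f u + G.sl f (G.ce u) * (z - u) := by
  have a := (G.hce z hz).1
  have := ip_le (G := G) (f := f) (g := fun _ => 0) hz
    (a := f (G.ce u) - G.sl f (G.ce u) * G.x (G.ce u)) (s := G.sl f (G.ce u))
    (by linarith [cv_le hf a.le (G.hce u hu).1]) (by linarith [cv_le hf a (G.hce u hu).1])
  rw [ip_eq (z := u)]
  simp only [ip, mul_zero] at this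
  unfold ip
  linarith

lemma h_le (hz : I z) : binEntropy z ≤ G.ip G.hp z := by
  obtain ⟨q, q0, q1, a, b⟩ := G.tan _ (G.hce z hz).1
  have := ip_le (G := G) (f := fun _ => 0) (g := G.hp) hz (a := log (1 - q))
    (s := log q - log (1 - q)) (by linarith) (by linarith)
  have := gibbs hz q0 q1
  simp only [ip, mul_zero] at *
  linarith

lemma ip_h {a : ℝ} (ha : I a) (hz : I z) :
    G.ip (fun b => binEntropy (G.x b * a)) z ≤ binEntropy (z * a) := by
  have c := (G.hce z hz).1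
  have a0 := G.xI _ c.le
  have a1 := G.xI _ c
  refine (h_conc (mul_nonneg a0.1 ha.1) (mul_le_one₀ a0.2 ha.1 ha.2) (mul_nonneg a1.1 ha.1)
    (mul_le_one₀ a1.2 ha.1 ha.2) (τI hz).1 (τI hz).2).trans_eq ?_
  congr 1
  linear_combination a * ip_x (G := G) hz

lemma ip_A (hz : I z) :
    G.ip (fun b => binEntropy (min (G.x b) 2⁻¹)) z ≤ binEntropy (min z 2⁻¹) := by
  have c := (G.hce z hz).1
  have a0 := G.xI _ c.le
  have a1 := G.xI _ c
  have t := τI (G := G) hz
  have b0 : 0 ≤ min (G.x (G.ce z)) 2⁻¹ := le_min a0.1 (by norm_num)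
  have b1 : 0 ≤ min (G.x (G.ce z + 1)) 2⁻¹ := le_min a1.1 (by norm_num)
  have m := fun (a b : ℝ) (e : a ≤ b) => mul_le_mul_of_nonneg_left e t.1
  have m' := fun (a b : ℝ) (e : a ≤ b) => mul_le_mul_of_nonneg_left e (sub_nonneg.2 t.2)
  refine (h_conc b0 ((min_le_left _ _).trans a0.2) b1 ((min_le_left _ _).trans a1.2) t.1
    t.2).trans (h_mono (add_nonneg (mul_nonneg (sub_nonneg.2 t.2) b0) (mul_nonneg t.1 b1))
      (le_min ?_ ?_) (min_le_right _ _))
  · linarith [ip_x (G := G) hz, m _ _ (min_le_left (G.x (G.ce z + 1)) 2⁻¹),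
      m' _ _ (min_le_left (G.x (G.ce z)) 2⁻¹)]
  · linarith [m _ _ (min_le_right (G.x (G.ce z + 1)) 2⁻¹), m' _ _ (min_le_right (G.x (G.ce z)) 2⁻¹)]

lemma ip_B (hz : I z) :
    G.ip (fun b => binEntropy (max (2 * G.x b - 1) 2⁻¹)) z ≤ binEntropy (max (2 * z - 1) 2⁻¹) := by
  have c := (G.hce z hz).1
  have a0 := G.xI _ c.le
  have a1 := G.xI _ c
  have t := τI (G := G) hz
  have b0 : max (2 * G.x (G.ce z) - 1) 2⁻¹ ≤ 1 := max_le (by linarith [a0.2]) (by norm_num)
  have b1 : max (2 * G.x (G.ce z + 1) - 1) 2⁻¹ ≤ 1 := max_le (by linarith [a1.2]) (by norm_num)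
  have m := fun (a b : ℝ) (e : a ≤ b) => mul_le_mul_of_nonneg_left e t.1
  have m' := fun (a b : ℝ) (e : a ≤ b) => mul_le_mul_of_nonneg_left e (sub_nonneg.2 t.2)
  refine (h_conc (le_max_of_le_right (by norm_num)) b0 (le_max_of_le_right (by norm_num)) b1 t.1
    t.2).trans (h_anti (le_max_right _ _) (max_le ?_ ?_) ?_)
  · linarith [ip_x (G := G) hz, m _ _ (le_max_left (2 * G.x (G.ce z + 1) - 1) 2⁻¹),
      m' _ _ (le_max_left (2 * G.x (G.ce z) - 1) 2⁻¹)]
  · linarith [m _ _ (le_max_right (2 * G.x (G.ce z + 1) - 1) 2⁻¹),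
      m' _ _ (le_max_right (2 * G.x (G.ce z) - 1) 2⁻¹)]
  · linarith [m _ _ b1, m' _ _ b0]

/-- Double interpolation of an inequality. -/
lemma ip2 {y : ℝ} (hy : I y) (hz : I z) {k : ℕ → ℕ → ℝ}
    (h : ∀ a b, G.ce y ≤ a → a ≤ G.ce y + 1 → G.ce z ≤ b → b ≤ G.ce z + 1 → 0 ≤ k a b) :
    0 ≤ G.ip (fun a => G.ip (k a) z) y := by
  have s := τI (G := G) hy
  have t := τI (G := G) hz
  have a : ∀ a, G.ce y ≤ a → a ≤ G.ce y + 1 → 0 ≤ G.ip (k a) z := fun a h1 h2 =>
    add_nonneg (mul_nonneg (sub_nonneg.2 t.2) (h _ _ h1 h2 le_rfl (by omega)))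
      (mul_nonneg t.1 (h _ _ h1 h2 (by omega) le_rfl))
  exact add_nonneg (mul_nonneg (sub_nonneg.2 s.2) (a _ le_rfl (by omega)))
    (mul_nonneg s.1 (a _ (by omega) le_rfl))

lemma ip_h2 {y : ℝ} (hy : I y) (hz : I z) :
    G.ip (fun a => G.ip (fun b => binEntropy (G.x b * G.x a)) z) y ≤ binEntropy (z * y) := by
  have c := (G.hce y hy).1
  have a := ip_le (G := G) (f := fun a => G.ip (fun b => binEntropy (G.x b * G.x a)) z)
    (g := fun a => binEntropy (G.x a * z)) hy (a := 0) (s := 0)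
    (by simpa [mul_comm] using ip_h (G.xI _ c.le) hz) (by simpa [mul_comm] using ip_h (G.xI _ c) hz)
  have b := ip_h (G := G) hz hy
  rw [mul_comm z]
  linarith

end Grid

end Pool.Agent.MP_caa27d_co.E

end

section

set_option autoImplicit false

open Finset Real

namespace Pool.Agent.MP_caa27d_co.E

namespace Grid

variable {G : Grid} {z y u : ℝ}

lemma ip_lin (hz : I z) {f g p : ℕ → ℝ} {s : ℝ} (h0 : f (G.ce z) ≤ g (G.ce z) + s * p (G.ce z))
    (h1 : f (G.ce z + 1) ≤ g (G.ce z + 1) + s * p (G.ce z + 1)) :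
    G.ip f z ≤ G.ip g z + s * G.ip p z := by
  have b0 := mul_le_mul_of_nonneg_left h0 (sub_nonneg.2 (τI (G := G) hz).2)
  have b1 := mul_le_mul_of_nonneg_left h1 (τI (G := G) hz).1
  unfold ip
  linarith

lemma ip_w (K : ℝ) (hz : I z) : G.ip (fun b => w K (G.x b)) z ≤ w K z := by
  have a1 := ip_A (G := G) hz
  have a2 := ip_B (G := G) hz
  have b1 := ip_lin (G := G) hz (f := fun b => w K (G.x b)) (g := fun _ => K) (p := fun _ => 0)
    (s := 0) ((min_le_left _ _).trans_eq (by ring)) ((min_le_left _ _).trans_eq (by ring))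
  have b2 := ip_lin (G := G) hz (f := fun b => w K (G.x b)) (g := fun _ => -K)
    (p := fun b => binEntropy (min (G.x b) 2⁻¹)) (s := 2)
    (((min_le_right _ _).trans (min_le_left _ _)).trans_eq (by ring))
    (((min_le_right _ _).trans (min_le_left _ _)).trans_eq (by ring))
  have b3 := ip_lin (G := G) hz (f := fun b => w K (G.x b)) (g := fun _ => 0)
    (p := fun b => binEntropy (max (2 * G.x b - 1) 2⁻¹)) (s := 1)
    (((min_le_right _ _).trans (min_le_right _ _)).trans_eq (by ring))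
    (((min_le_right _ _).trans (min_le_right _ _)).trans_eq (by ring))
  have c : ∀ a : ℝ, G.ip (fun _ => a) z = a := fun a => by unfold ip; ring
  rw [c] at b1 b2 b3
  exact le_min (by linarith) (le_min (by linarith) (by linarith))

lemma n1 {K : ℝ} {p : ℕ → ℝ} (hc : G.Cv fun b => -p b)
    (hl : ∀ b ≤ G.N, p b + 41 / 50 * G.hp b ≤ 6 / 25 * w K (G.x b)) (hy : I y) (hz : I z) :
    G.ip p y + -G.sl (fun b => -p b) (G.ce y) * (z - y) ≤
      6 / 25 * w K z - 41 / 50 * binEntropy z := by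
  have c := (G.hce z hz).1
  have a1 := ip_cv hc hy hz
  have a2 := ip_w (G := G) K hz
  have a3 := h_le (G := G) hz
  have a4 := ip_lin (G := G) hz (f := fun b => p b + 41 / 50 * G.hp b) (g := fun _ => 0)
    (p := fun b => w K (G.x b)) (s := 6 / 25) (by simpa using hl _ c.le) (by simpa using hl _ c)
  unfold ip at *
  linarith

lemma n2 {g kk : ℕ → ℕ → ℝ} {p : ℕ → ℝ} (hy : I y) (hu : I u) (hz : I z)
    (hc : ∀ a ≤ G.N, G.Cv (g a))
    (hl : ∀ e b, G.ce y ≤ e → e ≤ G.ce y + 1 → G.ce u ≤ b → b ≤ G.ce u + 1 →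
      g e b ≤ binEntropy (G.x b * G.x e) - 29 / 50 * G.x e * G.hp b)
    (hk : ∀ a ≤ G.N, ∀ b ≤ G.N, kk a b ≤ g a b + (1 - G.x a) * p b) :
    G.ip (fun a => G.ip (kk a) z) y ≤ binEntropy (u * y) - 29 / 50 * y * binEntropy u +
      G.ip (fun a => G.sl (g a) (G.ce u)) y * (z - u) + (1 - y) * G.ip p z := by
  have c := (G.hce y hy).1
  have d := (G.hce z hz).1
  have key : ∀ e, G.ce y ≤ e → e ≤ G.ce y + 1 → G.ip (kk e) z ≤
      (G.ip (fun b => binEntropy (G.x b * G.x e)) u + G.sl (g e) (G.ce u) * (z - u)) + G.ip p z +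
        -(29 / 50 * G.ip G.hp u + G.ip p z) * G.x e := by
    intro e e1 e2
    have a1 := ip_lin (G := G) hz (hk e (by omega) _ d.le) (hk e (by omega) _ d)
    have a2 := ip_cv (hc e (by omega)) hu hz
    have a3 := ip_lin (G := G) hu (f := g e) (g := fun b => binEntropy (G.x b * G.x e)) (p := G.hp)
      (s := -(29 / 50 * G.x e)) (by linarith [hl e _ e1 e2 le_rfl (Nat.le_succ _)])
      (by linarith [hl e _ e1 e2 (Nat.le_succ _) le_rfl])
    linarith
  have b1 := ip_le (G := G) hy (f := fun a => G.ip (kk a) z) (g := fun e =>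
    G.ip (fun b => binEntropy (G.x b * G.x e)) u + G.sl (g e) (G.ce u) * (z - u))
    (key _ le_rfl (by omega)) (key _ (by omega) le_rfl)
  have b2 := ip_h2 (G := G) hy hu
  have b3 := mul_le_mul_of_nonneg_left (h_le (G := G) hu) hy.1
  have b4 : G.ip (fun e => G.ip (fun b => binEntropy (G.x b * G.x e)) u +
      G.sl (g e) (G.ce u) * (z - u)) y = G.ip (fun e => G.ip (fun b => binEntropy (G.x b * G.x e)) u) y
      + G.ip (fun a => G.sl (g a) (G.ce u)) y * (z - u) := by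
    simp only [ip]; ring
  linarith

structure Case (G : Grid) where
  K : ℝ
  L : ℝ
  U : ℝ
  p0 : ℕ → ℝ
  p1 : ℕ → ℝ
  r : ℕ → ℝ
  al : ℕ → ℝ
  be : ℕ → ℝ
  g0 : ℕ → ℕ → ℝ
  g1 : ℕ → ℕ → ℝ
  kk : ℕ → ℕ → ℝ
  th : ℕ → ℕ
  c0 : G.Cv fun b => -p0 b
  c1 : G.Cv fun b => -p1 b
  l0 : ∀ b ≤ G.N, p0 b + 41 / 50 * G.hp b ≤ 6 / 25 * w 0 (G.x b)
  l1 : ∀ b ≤ G.N, p1 b + 41 / 50 * G.hp b ≤ 6 / 25 * w K (G.x b)
  cg0 : ∀ a ≤ G.N, G.Cv (g0 a)
  cg1 : ∀ a ≤ G.N, G.Cv (g1 a)
  lg0 : ∀ a < G.N, ∀ e, a ≤ e → e ≤ a + 1 → ∀ b ≤ G.N, b ≤ th a →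
    g0 e b ≤ binEntropy (G.x b * G.x e) - 29 / 50 * G.x e * G.hp b
  lg1 : ∀ a < G.N, ∀ e, a ≤ e → e ≤ a + 1 → ∀ b ≤ G.N, th a ≤ b →
    g1 e b ≤ binEntropy (G.x b * G.x e) - 29 / 50 * G.x e * G.hp b
  k0 : ∀ a ≤ G.N, ∀ b ≤ G.N, kk a b ≤ g0 a b + (1 - G.x a) * p0 b
  k1 : ∀ a ≤ G.N, ∀ b ≤ G.N, kk a b ≤ g1 a b + (1 - G.x a) * p1 b
  pos : ∀ a ≤ G.N, 0 ≤ r a ∧ 0 ≤ al a ∧ 0 ≤ be a
  n3 : ∀ a ≤ G.N, ∀ b ≤ G.N, 0 ≤ kk a b + kk b a - 21 / 50 * (G.hp a + G.hp b) -
    r a * (G.x b - 77 / 125) - r b * (G.x a - 77 / 125) - al a * (G.hp b - L) -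
    al b * (G.hp a - L) - be a * (U - G.hp b) - be b * (U - G.hp a) - log 2 / 2000

lemma Case.loc (C : G.Case) : Loc (fun y u => if G.ce u < C.th (G.ce y) then 0 else C.K)
    fun y z => G.ip (fun a => G.ip (C.kk a) z) y := by
  refine ⟨fun y u z => G.ip (if G.ce u < C.th (G.ce y) then C.p0 else C.p1) z,
    fun y u z => -G.sl (fun b => -(if G.ce u < C.th (G.ce y) then C.p0 else C.p1) b) (G.ce z),
    fun y u => G.ip (fun a => G.sl ((if G.ce u < C.th (G.ce y) then C.g0 else C.g1) a) (G.ce u)) y,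
    fun y u x z _ _ hx hz _ => ?_, fun y u z hy hu hz _ => ?_⟩
  · dsimp only
    split_ifs
    · exact n1 C.c0 C.l0 hx hz
    · exact n1 C.c1 C.l1 hx hz
  · have c := (G.hce y hy).1
    have d := (G.hce u hu).1
    dsimp only
    split_ifs with e
    · exact n2 hy hu hz C.cg0 (fun a b h1 h2 _ _ => C.lg0 _ c a h1 h2 b (by omega) (by omega)) C.k0
    · exact n2 hy hu hz C.cg1 (fun a b h1 h2 _ _ => C.lg1 _ c a h1 h2 b (by omega) (by omega)) C.k1

lemma ip_nonneg {f : ℕ → ℝ} (hz : I z) (h : ∀ a ≤ G.N, 0 ≤ f a) : 0 ≤ G.ip f z :=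
  add_nonneg (mul_nonneg (sub_nonneg.2 (τI hz).2) (h _ (G.hce z hz).1.le))
    (mul_nonneg (τI hz).1 (h _ (G.hce z hz).1))

lemma Case.pair (C : G.Case) (hy : I y) (hz : I z) :
    G.ip C.r y * (z - 77 / 125) + G.ip C.r z * (y - 77 / 125) + G.ip C.al y * (G.ip G.hp z - C.L) +
      G.ip C.al z * (G.ip G.hp y - C.L) + G.ip C.be y * (C.U - G.ip G.hp z) +
      G.ip C.be z * (C.U - G.ip G.hp y) + log 2 / 2000 ≤
    (G.ip (fun a => G.ip (C.kk a) z) y - 21 / 50 * binEntropy z) +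
      (G.ip (fun a => G.ip (C.kk a) y) z - 21 / 50 * binEntropy y) := by
  have c := (G.hce y hy).1
  have d := (G.hce z hz).1
  have a := ip2 (G := G) hy hz fun a b _ _ _ _ => C.n3 a (by omega) b (by omega)
  have b1 := h_le (G := G) hy
  have b2 := h_le (G := G) hz
  have e1 := congr(G.ip C.r z * $(ip_x (G := G) hy))
  have e2 := congr(G.ip C.r y * $(ip_x (G := G) hz))
  simp only [ip] at *
  linarith

lemma Case.num (C : G.Case) {F : Finset (Finset ℕ)} {x : Finset ℕ → ℝ} (hx : ∀ A, I (x A))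
    (hm : 77 / 125 * (F.card : ℝ) ≤ ∑ A ∈ F, x A) (hL : C.L * F.card ≤ ∑ A ∈ F, G.ip G.hp (x A))
    (hU : ∑ A ∈ F, G.ip G.hp (x A) ≤ C.U * F.card) : Num F x := by
  refine ⟨_, _, C.loc, ?_⟩
  have a := sum_le_sum fun B (_ : B ∈ F) => sum_le_sum fun A (_ : A ∈ F) => C.pair (hx B) (hx A)
  have p : ∀ f g : Finset ℕ → ℝ, (∀ A, 0 ≤ f A) → 0 ≤ ∑ A ∈ F, g A →
      0 ≤ ∑ B ∈ F, ∑ A ∈ F, f B * g A ∧ 0 ≤ ∑ B ∈ F, ∑ A ∈ F, f A * g B := fun f g h1 h2 => by
    rw [sum_comm (f := fun B A => f A * g B), ← sum_mul_sum, and_self]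
    exact mul_nonneg (sum_nonneg fun A _ => h1 A) h2
  have p1 := p (fun A => G.ip C.r (x A)) (fun A => x A - 77 / 125)
    (fun A => ip_nonneg (hx A) fun a h => (C.pos a h).1)
    (by rw [sum_sub_distrib, sum_const, nsmul_eq_mul]; linarith)
  have p2 := p (fun A => G.ip C.al (x A)) (fun A => G.ip G.hp (x A) - C.L)
    (fun A => ip_nonneg (hx A) fun a h => (C.pos a h).2.1)
    (by rw [sum_sub_distrib, sum_const, nsmul_eq_mul]; linarith)
  have p3 := p (fun A => G.ip C.be (x A)) (fun A => C.U - G.ip G.hp (x A))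
    (fun A => ip_nonneg (hx A) fun a h => (C.pos a h).2.2)
    (by rw [sum_sub_distrib, sum_const, nsmul_eq_mul]; linarith)
  have q := sum_le_card_nsmul F (fun A => binEntropy (x A)) _ fun A _ => binEntropy_le_log_two
  rw [nsmul_eq_mul] at q
  have q2 := mul_le_mul_of_nonneg_left q (Nat.cast_nonneg F.card)
  simp only [sum_add_distrib, sum_const, nsmul_eq_mul] at a
  rw [sum_comm (f := fun B A => G.ip (fun a => G.ip (C.kk a) (x B)) (x A) -
    21 / 50 * binEntropy (x B))] at a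
  linarith [p1.1, p1.2, p2.1, p2.2, p3.1, p3.2]

end Grid

end Pool.Agent.MP_caa27d_co.E

end

section

set_option autoImplicit false

open Finset Real

namespace Pool.Agent.MP_caa27d_co.E

variable {z y u : ℝ}

lemma h_tan (hu : I u) (hz : I z) (hr : Ref u z) :
    binEntropy z ≤ binEntropy u + (log (1 - u) - log u) * (z - u) := by
  rcases hu.1.eq_or_lt with e | e
  · rw [hr.1 e.symm, ← e]; simp
  rcases hu.2.eq_or_lt with e' | e'
  · rw [hr.2 e', e']; simp
  have := gibbs hz e e'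
  rw [binEntropy.eq_1 u, log_inv, log_inv]
  linarith

lemma h_mul (hy : I y) (hu : I u) : u * binEntropy y + y * negMulLog u ≤ binEntropy (u * y) := by
  have := concaveOn_negMulLog.2 (Set.mem_Ici.2 (sub_nonneg.2 hy.2)) (Set.mem_Ici.2 zero_le_one)
    hu.1 (sub_nonneg.2 hu.2) (by ring)
  simp only [smul_eq_mul, negMulLog_one] at this
  rw [binEntropy_eq_negMulLog_add_negMulLog_one_sub, binEntropy_eq_negMulLog_add_negMulLog_one_sub,
    negMulLog_mul, show 1 - u * y = u * (1 - y) + (1 - u) * 1 by ring]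
  linarith

lemma h_up (hy : I y) : binEntropy y ≤ negMulLog y + y := by
  have := negMulLog_le_one_sub_self (sub_nonneg.2 hy.2)
  rw [binEntropy_eq_negMulLog_add_negMulLog_one_sub]
  linarith

lemma nml_ge (k : ℕ) (h0 : 0 ≤ y) (h1 : y ≤ 1 / 2 ^ k) : k * 0.693 * y ≤ negMulLog y := by
  rcases h0.eq_or_lt with rfl | e
  · simp
  have a := log_le_log e h1
  rw [one_div, log_inv, log_pow] at a
  have b := mul_le_mul_of_nonneg_left log_two_gt_d9.le (Nat.cast_nonneg (α := ℝ) k)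
  have c : (0 : ℝ) ≤ k := Nat.cast_nonneg k
  have := mul_le_mul_of_nonneg_right (show k * 0.693 ≤ -log y by linarith) h0
  unfold negMulLog
  linarith

lemma h_small (hy : I y) (h1 : y ≤ 1 / 2 ^ 15) : 10 * y ≤ binEntropy y := by
  have a := nml_ge 15 hy.1 h1
  have b := negMulLog_nonneg (sub_nonneg.2 hy.2) (sub_le_self 1 hy.1)
  rw [binEntropy_eq_negMulLog_add_negMulLog_one_sub]
  push_cast at a
  linarith [hy.1]

lemma corner (hy : I y) (hu : I u) (h1 : 511 / 512 ≤ y) (h2 : 511 / 512 ≤ u) :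
    9 / 10 * (binEntropy y + binEntropy u) ≤ binEntropy (u * y) := by
  obtain ⟨t, ht⟩ : ∃ t, t = (1 - 2⁻¹) * (1 - y) + 2⁻¹ * (1 - u) := ⟨_, rfl⟩
  have t0 : 0 ≤ t := by linarith [hy.2, hu.2]
  have t1 : t ≤ 1 / 512 := by linarith
  have a1 := h_conc (a := 1 - y) (b := 1 - u) (s := 2⁻¹) (by linarith [hy.2]) (by linarith)
    (by linarith [hu.2]) (by linarith) (by norm_num) (by norm_num)
  rw [← ht, binEntropy_one_sub, binEntropy_one_sub] at a1
  have a2 := h_up (y := t) ⟨t0, by linarith⟩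
  have a3 := nml_ge 9 t0 (by linarith)
  have a4 := h_conc (a := 0) (b := 2 * t) (s := 1023 / 1024) le_rfl zero_le_one (by linarith)
    (by linarith) (by norm_num) (by norm_num)
  have a5 := h_mono (a := (1 - 1023 / 1024) * 0 + 1023 / 1024 * (2 * t)) (b := 1 - u * y)
    (by linarith) (by nlinarith [sq_nonneg (u - y)]) (by nlinarith)
  have a6 : (1 - 2 * t) * (2 * t) ≤ negMulLog (1 - 2 * t) := by
    have := mul_le_mul_of_nonneg_left (log_le_sub_one_of_pos (show 0 < 1 - 2 * t by linarith))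
      (show 0 ≤ 1 - 2 * t by linarith)
    unfold negMulLog
    linarith
  have a7 := mul_le_mul_of_nonneg_left log_two_lt_d9.le t0
  have a8 := mul_le_mul_of_nonneg_left t1 t0
  rw [binEntropy_eq_negMulLog_add_negMulLog_one_sub (2 * t), negMulLog_mul, negMulLog.eq_1 2,
    binEntropy_zero] at a4
  rw [binEntropy_one_sub] at a5
  push_cast at a3
  linarith

namespace Grid

variable {G : Grid}

lemma x_mono {b c : ℕ} (h : b ≤ c) (hc : c ≤ G.N) : G.x b ≤ G.x c := by
  induction c, h using Nat.le_induction with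
  | base => exact le_rfl
  | succ c _ ih => exact (ih (by omega)).trans (G.lt c hc).le

def Zero (G : Grid) : Prop := G.x 1 ≤ 1 / 2 ^ 15 ∧ ∃ ic, 511 / 512 ≤ G.x ic ∧
  ∀ a b, 1 ≤ a → a ≤ G.N → 1 ≤ b → b ≤ G.N → a ≤ ic ∨ b ≤ ic →
    0 ≤ binEntropy (G.x b * G.x a) - 9 / 10 * G.x b * G.hp a - 29 / 50 * G.x a * G.hp b ∧
    0 ≤ binEntropy (G.x b * G.x a) - 9 / 10 * G.x b * G.hp a -
      (9 / 10 * G.x a - 4 / 5 * G.hp a) * G.hp b

lemma zmain (hZ : G.Zero) (hy : I y) (hu : I u) : 9 / 10 * u * binEntropy y +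
    (29 / 50 * y + max 0 (8 / 25 * y - 4 / 5 * G.ip G.hp y)) * binEntropy u ≤
      binEntropy (u * y) := by
  obtain ⟨z1, ic, z2, z3⟩ := hZ
  have a1 := h_le (G := G) hy
  have a2 := h_le (G := G) hu
  have a3 := binEntropy_nonneg hy.1 hy.2
  have a4 := binEntropy_nonneg hu.1 hu.2
  have a5 := mul_nonneg hu.1 hy.1
  have d : max 0 (8 / 25 * y - 4 / 5 * G.ip G.hp y) ≤ 8 / 25 * y :=
    max_le (by linarith [hy.1]) (by linarith)
  have d' := mul_le_mul_of_nonneg_right d a4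
  by_cases e1 : y ≤ 1 / 2 ^ 15
  · have b1 := h_small hy e1
    have b2 := mul_le_mul_of_nonneg_left b1 hu.1
    have b3 := mul_le_mul_of_nonneg_left (h_up hu) hy.1
    have b4 := mul_nonneg hy.1 (negMulLog_nonneg hu.1 hu.2)
    rw [max_eq_left (by linarith [hy.1])]
    linarith [h_mul hy hu]
  by_cases e2 : u ≤ 1 / 2 ^ 15
  · have b2 := mul_le_mul_of_nonneg_left (h_small hu e2) hy.1
    have b3 := mul_le_mul_of_nonneg_left (h_up hy) hu.1
    have b4 := mul_nonneg hu.1 (negMulLog_nonneg hy.1 hy.2)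
    have b5 := h_mul hu hy
    rw [mul_comm y u] at b5
    linarith
  by_cases e3 : 511 / 512 ≤ y ∧ 511 / 512 ≤ u
  · have b1 := mul_le_mul_of_nonneg_right hu.2 a3
    have b2 := mul_le_mul_of_nonneg_right hy.2 a4
    linarith [corner hy hu e3.1 e3.2]
  obtain ⟨c1, c2, c3⟩ := G.hce y hy
  obtain ⟨d1, d2, d3⟩ := G.hce u hu
  have f1 : 1 ≤ G.ce y := Nat.pos_of_ne_zero fun e => e1 (by rw [e] at c3; exact c3.trans z1)
  have f2 : 1 ≤ G.ce u := Nat.pos_of_ne_zero fun e => e2 (by rw [e] at d3; exact d3.trans z1)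
  have f3 : G.ce y < ic ∨ G.ce u < ic := by
    by_contra e
    exact e3 ⟨z2.trans ((x_mono (by omega) c1.le).trans c2),
      z2.trans ((x_mono (by omega) d1.le).trans d2)⟩
  have g1 := ip2 (G := G) hy hu fun a b _ _ _ _ =>
    (z3 a b (by omega) (by omega) (by omega) (by omega) (by omega)).1
  have g2 := ip2 (G := G) hy hu fun a b _ _ _ _ =>
    (z3 a b (by omega) (by omega) (by omega) (by omega) (by omega)).2
  have g3 := ip_h2 (G := G) hy hu
  have g4 := congr(G.ip G.hp u * $(ip_x (G := G) hy))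
  have g5 := congr(G.ip G.hp y * $(ip_x (G := G) hu))
  have g6 := mul_le_mul_of_nonneg_left a1 hu.1
  have g7 := mul_le_mul_of_nonneg_left a2 (add_nonneg (mul_nonneg (by norm_num : (0 : ℝ) ≤ 29 / 50)
    hy.1) (le_max_left 0 (8 / 25 * y - 4 / 5 * G.ip G.hp y)))
  rcases max_cases 0 (8 / 25 * y - 4 / 5 * G.ip G.hp y) with e | e
  all_goals
    rw [e.1] at g7 ⊢
    simp only [ip] at *
    linarith

lemma num0 (hZ : G.Zero) {F : Finset (Finset ℕ)} {x : Finset ℕ → ℝ} (hx : ∀ A, I (x A))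
    (hm : 77 / 125 * (F.card : ℝ) ≤ ∑ A ∈ F, x A)
    (hU : ∑ A ∈ F, G.ip G.hp (x A) ≤ 1 / 70 * F.card) : Num F x := by
  refine ⟨fun _ _ => 0, fun y z => 9 / 10 * binEntropy y * z +
    (max 0 (8 / 25 * y - 4 / 5 * G.ip G.hp y) - (1 - y) * (41 / 50)) * binEntropy z,
    ⟨fun _ _ z => -(41 / 50) * binEntropy z, fun _ _ z => -(41 / 50) * (log (1 - z) - log z),
      fun y u => 9 / 10 * binEntropy y + max 0 (8 / 25 * y - 4 / 5 * G.ip G.hp y) *
        (log (1 - u) - log u), fun y u x z _ _ hx hz hr => ?_, fun y u z hy hu hz hr => ?_⟩, ?_⟩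
  · rw [w_zero hz]
    linarith [h_tan hx hz hr]
  · have := mul_le_mul_of_nonneg_left (h_tan hu hz hr)
      (le_max_left 0 (8 / 25 * y - 4 / 5 * G.ip G.hp y))
    linarith [zmain hZ hy hu]
  · have a := sum_le_sum fun A (_ : A ∈ F) => le_max_right 0 (8 / 25 * x A - 4 / 5 * G.ip G.hp (x A))
    have b := sum_nonneg fun A (_ : A ∈ F) => binEntropy_nonneg (hx A).1 (hx A).2
    have c : (0 : ℝ) ≤ F.card := Nat.cast_nonneg _
    simp only [sum_sub_distrib, sum_add_distrib, ← mul_sum, ← sum_mul, sum_const, nsmul_eq_mul]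
      at a ⊢
    have d := mul_le_mul_of_nonneg_right a b
    have e := mul_le_mul_of_nonneg_right hm b
    have f := mul_le_mul_of_nonneg_right hU b
    have g := mul_nonneg c b
    linarith

end Grid

end Pool.Agent.MP_caa27d_co.E

end
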