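import Pool.Agent.Mg.Fcaa27d.G38921e
import Pool.Agent.Mg.Fcaa27d.Ga97eda

set_option autoImplicit false

open Finset Real

namespace Pool.Agent.MP_caa27d_co.E

lemma allN_iff {f : ℕ → Bool} {n : ℕ} : allN f n = true ↔ ∀ k < n, f k = true := by
  induction n with
  | zero => simp [allN]
  | succ n ih => rw [allN, Bool.and_eq_true, ih, Nat.forall_lt_succ_right, and_comm]

lemma mn_eq (a b : ℕ) : mn a b = min a b := by
  rcases le_or_gt a b with h | h
  · rw [mn, Nat.ble_eq_true_of_le h, min_eq_left h, cond_true]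
  · rw [mn, min_eq_right h.le, Bool.eq_false_iff.2 (Nat.not_le_of_gt h <| Nat.le_of_ble_eq_true ·),
      cond_false]

lemma cvg_sound {f : ℕ → ℕ} {k : ℕ} (h : cvg f k (f k) (f (k + 1)) = true) : ∀ b < k,
    f (b + 2) * (X (b + 1) - X b) + f b * (X (b + 2) - X (b + 1)) ≤
      f (b + 1) * (X (b + 2) - X b) := by
  induction k with
  | zero => simp
  | succ k ih =>
    rw [cvg, Bool.and_eq_true, Nat.ble_eq] at h
    exact Nat.forall_lt_succ_right.2 ⟨ih h.2, h.1⟩

lemma gfacts : cv HP = true ∧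
    (∀ c < 69, X c < X (c + 1) ∧ 0 < gt QT c ∧ gt QT c < 4294967296 ∧ tan1 c c = true ∧
      tan1 c (c + 1) = true) ∧
    (∀ b < 70, X b ≤ 65536 ∧ HP b ≤ 48103633715 ∧ 10 ≤ gt TT b ∧
      gt HAT b ≤ HL (min (X b) 32768 * 65536) ∧
      gt HBT b ≤ HL (max (2 * X b - 65536) 32768 * 65536)) ∧
    ∀ a < 70, ∀ b < 70, ((a ≤ 0 ∨ b ≤ 0) ∨ 63 < a ∧ 63 < b) ∨
      45 * X b * HP a + 29 * X a * HP b ≤ 3276800 * H2 a b ∧
      3092376453120 * (X b * HP a + X a * HP b) ≤
        225179981368524800 * H2 a b + 2621440 * HP a * HP b := by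
  have := g0.1
  simp only [chkG, Bool.and_eq_true, Bool.or_eq_true, allN_iff, Nat.ble_eq, Nat.blt_eq, and_assoc,
    mn_eq] at this
  exact this

noncomputable def xr (b : ℕ) : ℝ := X b / 65536

lemma x0 : X 0 = 0 ∧ X 1 = 2 ∧ X 63 = 65408 ∧ X 69 = 65536 := by decide +kernel

lemma Xle {b : ℕ} (hb : b ≤ 69) : (X b : ℝ) ≤ 65536 := by
  exact_mod_cast (gfacts.2.2.1 b (by omega)).1

lemma tan1_sound {c e : ℕ} (h : tan1 c e = true) (he : e ≤ 69) (q0 : 0 < gt QT c)
    (q1 : gt QT c < 4294967296) : -xr e * log (gt QT c / 4294967296) -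
      (1 - xr e) * log (1 - gt QT c / 4294967296) ≤ HP e / 68719476736 := by
  have a := mul_le_mul_of_nonneg_left (le_lgU q0) (Nat.cast_nonneg (X e))
  have b := mul_le_mul_of_nonneg_left (le_lgU (Nat.sub_pos_of_lt q1)) (sub_nonneg.2 (Xle he))
  have c := (Nat.cast_le (α := ℝ)).2 (Nat.le_of_ble_eq_true h)
  rw [Nat.cast_sub q1.le, Nat.cast_ofNat, sub_div, div_self (by norm_num)] at b
  push_cast [(gfacts.2.2.1 e (by omega)).1] at c
  unfold xr
  linarith

noncomputable def GG : Grid where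
  N := 69
  x := xr
  ce := (exists_ce xr 69 (by norm_num) (by simp [xr, x0.1]) (by simp [xr, x0.2.2.2])).choose
  hp := fun b => HP b / 68719476736
  lt := fun i hi => div_lt_div_of_pos_right (by exact_mod_cast (gfacts.2.1 i hi).1) (by norm_num)
  xI := fun i hi => ⟨by unfold xr; positivity, div_le_one_of_le₀ (Xle hi) (by norm_num)⟩
  hce := (exists_ce xr 69 (by norm_num) (by simp [xr, x0.1]) (by simp [xr, x0.2.2.2])).choose_spec
  tan := fun c hc => by
    obtain ⟨-, q0, q1, a, b⟩ := gfacts.2.1 c hc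
    exact ⟨gt QT c / 4294967296, by positivity,
      (div_lt_one (by norm_num)).2 (by exact_mod_cast q1), tan1_sound a hc.le q0 q1,
      tan1_sound b hc q0 q1⟩

lemma H2_aux {a b : ℕ} (ha : a ≤ 69) (hb : b ≤ a) :
    H2 a b ≤ HL (X b * X a) ∧ H2 b a ≤ H2 a b := by
  have k : ∀ s, chkH s = true → s ≤ a → a < s + 10 → H2 a b ≤ HL (X b * X a) ∧ H2 b a ≤ H2 a b := by
    intro s h h1 h2
    obtain ⟨t, rfl⟩ := Nat.exists_eq_add_of_le h1
    simp only [chkH, allN_iff, Bool.and_eq_true, Nat.ble_eq] at h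
    exact h t (by omega) b (by omega)
  obtain ⟨-, h0, h1, h2, h3, h4, h5, h6⟩ := g0
  have := k _ h0; have := k _ h1; have := k _ h2; have := k _ h3; have := k _ h4; have := k _ h5
  have := k _ h6
  omega

lemma H2_le {a b : ℕ} (ha : a ≤ 69) (hb : b ≤ 69) :
    (H2 a b : ℝ) ≤ 68719476736 * binEntropy (xr b * xr a) := by
  have c := HL_le (P := X b * X a) (Nat.mul_le_mul (gfacts.2.2.1 b (by omega)).1
    (gfacts.2.2.1 a (by omega)).1)
  rw [show xr b * xr a = (X b * X a : ℕ) / 4294967296 by unfold xr; push_cast; ring]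
  refine ((Nat.cast_le (α := ℝ)).2 ?_).trans c
  rcases le_total b a with e | e
  · exact (H2_aux ha e).1
  · exact (H2_aux hb e).2.trans (mul_comm (X a) _ ▸ (H2_aux hb e).1)

lemma zero_ok : GG.Zero := by
  refine ⟨by norm_num [GG, xr, x0.2.1], 63, by norm_num [GG, xr, x0.2.2.1],
    fun a b a1 a2 b1 b2 e => ?_⟩
  obtain ⟨c, d⟩ := (gfacts.2.2.2 a (Nat.lt_succ_of_le a2) b (Nat.lt_succ_of_le b2)).resolve_left
    (by omega)
  have c := (Nat.cast_le (α := ℝ)).2 c
  have d := (Nat.cast_le (α := ℝ)).2 d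
  have f := H2_le a2 b2
  push_cast at c d
  simp only [GG]
  set h := binEntropy (xr b * xr a)
  unfold xr
  constructor <;> linarith

lemma cv_sound {f : ℕ → ℕ} (h : cv f = true) {s o t : ℝ} (hs : 0 ≤ s) {g : ℕ → ℝ}
    (hg : ∀ b ≤ 69, g b = (f b - o - t * X b) * s) : GG.Cv g := by
  intro b hb
  have hb : b + 1 < 69 := hb
  have l1 := (gfacts.2.1 b (by omega)).1
  have l2 := (gfacts.2.1 (b + 1) hb).1
  have a := (Nat.cast_le (α := ℝ)).2 (cvg_sound h b (by omega))
  push_cast [l1.le, l2.le, (l1.trans l2).le] at a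
  have a' := mul_le_mul_of_nonneg_left a hs
  refine (div_le_div_iff₀ (sub_pos.2 (GG.lt _ hb))
    (sub_pos.2 (GG.lt _ (hb.trans' b.lt_succ_self)))).2 ?_
  rw [hg _ hb, hg _ hb.le, hg b (by omega)]
  simp only [GG, xr]
  linarith

noncomputable def gr (g b : ℕ) : ℝ :=
  (g - 9223372036854775808 - 140737488355328 * X b) * (1 / (3276800 * 68719476736))

noncomputable def pr (p : ℕ) : ℝ := (p - 4398046511104) / (50 * 68719476736)

lemma Phi_le {a b g : ℕ} (ha : a ≤ 69) (hb : b ≤ 69) (h : g ≤ Φ a b) :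
    gr g b ≤ binEntropy (xr b * xr a) - 29 / 50 * xr a * (HP b / 68719476736) := by
  have c := (Nat.cast_le (α := ℝ)).2 h
  have f := H2_le ha hb
  have := Nat.mul_le_mul (Nat.mul_le_mul_left 29 (gfacts.2.2.1 a (by omega)).1)
    (gfacts.2.2.1 b (by omega)).2.1
  rw [Φ, Nat.cast_sub (by omega)] at c
  push_cast at c
  set h := binEntropy (xr b * xr a)
  unfold xr gr
  linarith

lemma w_ge (K : ℕ) {b : ℕ} (hb : b ≤ 69) {v : ℝ} (h1 : v ≤ K) (h2 : v ≤ 2 * gt HAT b - K)
    (h3 : v ≤ gt HBT b) : v / 68719476736 ≤ w (K / 68719476736) (xr b) := by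
  obtain ⟨a1, -, -, a2, a3⟩ := gfacts.2.2.1 b (by omega)
  have b2 := ((Nat.cast_le (α := ℝ)).2 a2).trans (HL_le (by omega))
  have b3 := ((Nat.cast_le (α := ℝ)).2 a3).trans (HL_le (by omega))
  have e2 : ((min (X b) 32768 * 65536 : ℕ) : ℝ) / 4294967296 = min (xr b) 2⁻¹ := by
    rcases le_total (X b) 32768 with e | e
    · have : (X b : ℝ) ≤ 32768 := by exact_mod_cast e
      rw [min_eq_left e, min_eq_left (by unfold xr; linarith), xr]; push_cast; ring
    · have : (32768 : ℝ) ≤ X b := by exact_mod_cast e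
      rw [min_eq_right e, min_eq_right (by unfold xr; linarith)]; norm_num
  have e3 : ((max (2 * X b - 65536) 32768 * 65536 : ℕ) : ℝ) / 4294967296 =
      max (2 * xr b - 1) 2⁻¹ := by
    rcases le_total (X b) 49152 with e | e
    · have : (X b : ℝ) ≤ 49152 := by exact_mod_cast e
      rw [max_eq_right (by omega), max_eq_right (by unfold xr; linarith)]; norm_num
    · have : (49152 : ℝ) ≤ X b := by exact_mod_cast e
      rw [max_eq_left (by omega), max_eq_left (by unfold xr; linarith), xr]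
      push_cast [show 65536 ≤ 2 * X b by omega]; ring
  rw [e2] at b2
  rw [e3] at b3
  exact le_min (by linarith) (le_min (by linarith) (by linarith))

noncomputable def kr (c : CD) (a b : ℕ) : ℝ :=
  gr (KK c a b) b - (65536 - X a) * 4398046511104 / (3276800 * 68719476736)

lemma n3_sound {c : CD} {a b : ℕ} (ha : a ≤ 69) (hb : b ≤ 69) (h : n3 c a b = true) :
    0 ≤ kr c a b + kr c b a - 21 / 50 * (HP a / 68719476736 + HP b / 68719476736) -
      gt c.R a * (125 / (50 * 68719476736)) * (xr b - 77 / 125) -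
      gt c.R b * (125 / (50 * 68719476736)) * (xr a - 77 / 125) -
      gt c.AL a / 3276800 * (HP b / 68719476736 - c.L / 68719476736) -
      gt c.AL b / 3276800 * (HP a / 68719476736 - c.L / 68719476736) -
      gt c.BE a / 3276800 * (c.U / 68719476736 - HP b / 68719476736) -
      gt c.BE b / 3276800 * (c.U / 68719476736 - HP a / 68719476736) - log 2 / 2000 := by
  have c := (Nat.cast_le (α := ℝ)).2 (Nat.le_of_ble_eq_true h)
  push_cast [(gfacts.2.2.1 a (by omega)).1, (gfacts.2.2.1 b (by omega)).1] at c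
  unfold xr kr gr
  linarith [log_two_lt_d9]

lemma kk_le {c : CD} {a b g p : ℕ} (ha : a ≤ 69) (h : KK c a b ≤ g + (65536 - X a) * p) :
    kr c a b ≤ gr g b + (1 - xr a) * pr p := by
  have c := (Nat.cast_le (α := ℝ)).2 h
  push_cast [(gfacts.2.2.1 a (by omega)).1] at c
  unfold xr kr gr pr
  linarith

lemma P0_eq {b : ℕ} (hb : b ≤ 69) : pr (P0 b) = -(41 / 50 * (HP b / 68719476736)) := by
  have := (gfacts.2.2.1 b (by omega)).2.1
  rw [pr, P0, Nat.cast_sub (by omega)]
  push_cast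
  ring

lemma num_c {c : CD} (hc : chkP c = true ∧ chkA c = true ∧ chkB c = true) {F : Finset (Finset ℕ)}
    {x : Finset ℕ → ℝ} (hx : ∀ A, I (x A)) (hm : 77 / 125 * (F.card : ℝ) ≤ ∑ A ∈ F, x A)
    (hL : c.L / 68719476736 * F.card ≤ ∑ A ∈ F, GG.ip GG.hp (x A))
    (hU : ∑ A ∈ F, GG.ip GG.hp (x A) ≤ c.U / 68719476736 * F.card) : Num F x := by
  simp only [chkP, chkA, chkB, Bool.and_eq_true, Bool.or_eq_true, allN_iff, Nat.ble_eq,
    and_assoc] at hc
  obtain ⟨a1, a2, a3, hB⟩ := hc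
  refine Grid.Case.num
    { K := c.K / 68719476736, L := c.L / 68719476736, U := c.U / 68719476736
      p0 := fun b => pr (P0 b), p1 := fun b => pr (gt c.P1 b)
      r := fun a => gt c.R a * (125 / (50 * 68719476736))
      al := fun a => gt c.AL a / 3276800, be := fun a => gt c.BE a / 3276800
      g0 := fun a b => gr (G0 c a b) b, g1 := fun a b => gr (G1 c a b) b
      kk := kr c
      th := fun a => if a ≤ 12 then 0 else 10
      c0 := cv_sound gfacts.1 (s := 41 / 50 / 68719476736) (o := 0) (t := 0) (by norm_num)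
        fun b hb => by rw [P0_eq hb]; ring
      c1 := cv_sound a1 (s := 1 / (50 * 68719476736)) (o := 0) (t := 0) (by norm_num)
        fun b hb => by rw [pr, Nat.cast_sub (a2 b (by omega)).1]; push_cast; ring
      l0 := fun b hb => ?_
      l1 := fun b hb => ?_
      cg0 := fun a ha => cv_sound (a3 a (Nat.lt_succ_of_le ha)).1 (by norm_num) fun _ _ => rfl
      cg1 := fun a ha => cv_sound (a3 a (Nat.lt_succ_of_le ha)).2.1 (by norm_num) fun _ _ => rfl
      lg0 := fun a ha e e1 e2 b hb h => Phi_le (e2.trans ha) hb ?_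
      lg1 := fun a ha e e1 e2 b hb h => Phi_le (e2.trans ha) hb ?_
      k0 := fun a ha b _ => kk_le ha (by rw [KK, mn_eq]; exact min_le_left _ _)
      k1 := fun a ha b _ => kk_le ha (by rw [KK, mn_eq]; exact min_le_right _ _)
      pos := fun a _ => ⟨by positivity, by positivity, by positivity⟩
      n3 := fun a ha b hb => ?_ } hx hm hL hU
  · rw [w_zero (GG.xI b hb), P0_eq hb]
    simp only [GG]
    linarith
  · obtain ⟨-, b1, b2, b3⟩ := a2 b (Nat.lt_succ_of_le hb)
    have b1 := (Nat.cast_le (α := ℝ)).2 b1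
    have b2 := (Nat.cast_le (α := ℝ)).2 b2
    have b3 := (Nat.cast_le (α := ℝ)).2 b3
    push_cast at b1 b2 b3
    have := w_ge c.K hb (v := (gt c.P1 b + 41 * HP b - 4398046511104) / 12) (by linarith)
      (by linarith) (by linarith)
    simp only [GG, pr]
    linarith
  · rw [G0, Nat.ble_eq_true_of_le, cond_true, mn_eq]
    · exact min_le_left _ _
    · simp only [Bool.cond_eq_ite, Nat.ble_eq]
      split_ifs at * <;> omega
  · rcases (a3 e (Nat.lt_succ_of_le (e2.trans ha))).2.2 b (Nat.lt_succ_of_le hb) with f | f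
    · rw [G1, Nat.ble_eq_true_of_le f, Nat.ble_eq_true_of_le, Bool.and_self, cond_true, mn_eq]
      · exact min_le_left _ _
      · simp only [Bool.cond_eq_ite, Nat.ble_eq]
        split_ifs at * <;> omega
    · exact f
  · rcases le_total b a with e | e
    · exact n3_sound ha hb (hB a (Nat.lt_succ_of_le ha) b (Nat.lt_succ_of_le e))
    · have := n3_sound hb ha (hB b (Nat.lt_succ_of_le hb) a (Nat.lt_succ_of_le e))
      simp only [GG]
      linarith

lemma ip_hp_le {z : ℝ} (hz : I z) : GG.ip GG.hp z ≤ 48103633715 / 68719476736 := by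
  have h : ∀ b ≤ 69, GG.hp b ≤ 0 + 48103633715 / 68719476736 + 0 * GG.x b := fun b hb => by
    have : (HP b : ℝ) ≤ 48103633715 := by exact_mod_cast (gfacts.2.2.1 b (by omega)).2.1
    simp only [GG]
    linarith
  have c := (GG.hce z hz).1
  have := Grid.ip_le (G := GG) (f := GG.hp) (g := fun _ => 0) hz (h _ c.le) (h _ c)
  simpa [Grid.ip.eq_1 GG fun _ => 0] using this

end Pool.Agent.MP_caa27d_co.E
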