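import Pool.Agent.Mg.Fcaa27d.Ga97eda
import Pool.Agent.Mg.Fcaa27d.G3eb784

section

namespace Pool.Agent.MP_caa27d_co.E

theorem k1 : chkP c1 = true ∧ chkA c1 = true ∧ chkB c1 = true :=
  ⟨by decide +kernel, by decide +kernel, by decide +kernel⟩

end Pool.Agent.MP_caa27d_co.E

end

section

set_option autoImplicit false

open Finset Real

namespace Pool.Agent.MP_caa27d_co.E

theorem num_all {F : Finset (Finset ℕ)} (x : Finset ℕ → ℝ) (hx : ∀ A, I (x A))
    (hm : 77 / 125 * (F.card : ℝ) ≤ ∑ A ∈ F, x A) : Num F x := by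
  have c : (0 : ℝ) ≤ F.card := Nat.cast_nonneg _
  have t := sum_le_card_nsmul F (fun A => GG.ip GG.hp (x A)) _ fun A _ => ip_hp_le (hx A)
  rw [nsmul_eq_mul, mul_comm] at t
  rcases le_total (∑ A ∈ F, GG.ip GG.hp (x A)) (c1.L / 68719476736 * F.card) with e | e
  · refine Grid.num0 zero_ok hx hm (e.trans (mul_le_mul_of_nonneg_right ?_ c))
    norm_num [show c1.L = 952654230 from rfl]
  refine (le_total _ _).elim (num_c k1 hx hm e) fun e => ?_
  refine (le_total _ _).elim (num_c k2 hx hm e) fun e => ?_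
  refine (le_total _ _).elim (num_c k3 hx hm e) fun e => ?_
  refine (le_total _ _).elim (num_c k4 hx hm e) fun e => ?_
  refine (le_total _ _).elim (num_c k5 hx hm e) fun e => ?_
  refine (le_total _ _).elim (num_c k6 hx hm e) fun e => ?_
  exact num_c k7 hx hm e (by simpa [show c7.U = 48103633715 from rfl] using t)

end Pool.Agent.MP_caa27d_co.E

end
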